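import Pool.Agent.V7H41.CC.Rcomb

open Finset

namespace Pool.Agent.V7H41.CC

/-- discrete concavity -/
theorem chain (g : ℕ → ℝ) (m1 m2 m3 : ℕ) (h12 : m1 < m2) (h23 : m2 < m3)
    (h : ∀ m, m1 < m → m < m3 → g (m - 1) + g (m + 1) ≤ 2 * g m) :
    ((m3 : ℝ) - m2) * g m1 + ((m2 : ℝ) - m1) * g m3 ≤ ((m3 : ℝ) - m1) * g m2 := by
  have anti : ∀ i j, m1 ≤ i → i ≤ j → j < m3 → g (j + 1) - g j ≤ g (i + 1) - g i := by
    intro i j hi hij
    induction j, hij using Nat.le_induction with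
    | base => intro _; exact le_rfl
    | succ j hij ih =>
      intro hj
      have h1 := ih (by omega)
      have h2 := h (j + 1) (by omega) hj
      rw [Nat.add_sub_cancel] at h2
      linarith
  set s := g (m2 - 1 + 1) - g (m2 - 1) with hs
  have low : ∀ j, m1 + j ≤ m2 → (j : ℝ) * s ≤ g (m1 + j) - g m1 := by
    intro j
    induction j with
    | zero => intro _; simp
    | succ j ih =>
      intro hj
      have h1 := ih (by omega)
      have h2 := anti (m1 + j) (m2 - 1) (by omega) (by omega) (by omega)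
      rw [← hs] at h2
      push_cast
      rw [← add_assoc]
      linarith
  have up : ∀ j, m2 + j ≤ m3 → g (m2 + j) - g m2 ≤ (j : ℝ) * s := by
    intro j
    induction j with
    | zero => intro _; simp
    | succ j ih =>
      intro hj
      have h1 := ih (by omega)
      have h2 := anti (m2 - 1) (m2 + j) (by omega) (by omega) (by omega)
      rw [← hs] at h2
      push_cast
      rw [← add_assoc]
      linarith
  have e1 := low (m2 - m1) (by omega)
  have e2 := up (m3 - m2) (by omega)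
  rw [Nat.add_sub_cancel' h12.le, Nat.cast_sub h12.le] at e1
  rw [Nat.add_sub_cancel' h23.le, Nat.cast_sub h23.le] at e2
  have p1 : (0 : ℝ) ≤ (m2 : ℝ) - m1 := by
    have : (m1 : ℝ) < m2 := by exact_mod_cast h12
    linarith
  have p2 : (0 : ℝ) ≤ (m3 : ℝ) - m2 := by
    have : (m2 : ℝ) < m3 := by exact_mod_cast h23
    linarith
  have f1 := mul_le_mul_of_nonneg_left e1 p2
  have f2 := mul_le_mul_of_nonneg_left e2 p1
  nlinarith [f1, f2]

theorem c_mem (hCONC : S_CONC) (n k : ℕ) (hn : 4 ≤ n) :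
    ∃ T F : PhyloTree n, T.IsCaterpillar ∧ F.IsCaterpillar ∧ c n k = common T F k := by
  obtain ⟨T, hT, _⟩ := hCONC n 1 hn
  exact Nat.sInf_mem (s := {N | ∃ T F : PhyloTree n, T.IsCaterpillar ∧ F.IsCaterpillar ∧
    N = common T F k}) ⟨_, T, T, hT, hT, rfl⟩

theorem c_single (hS : S_SINGLE) (hCONC : S_CONC) (n m : ℕ) (hn : 4 ≤ n) (hm : 1 ≤ m)
    (hmn : m + 1 ≤ n) : n.choose (m + 1) ≤ c n (n - m) := by
  obtain ⟨T, F, _, _, h⟩ := c_mem hCONC n (n - m) hn
  rw [h]
  exact hS n m T F hm hmn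

theorem finpart_finite (n : ℕ) (p : Finpartition (univ : Finset (Fin n)) → Prop) :
    {P | p P}.Finite := Set.toFinite _

theorem c_pairs (hCAT : S_CAT) (hCONC : S_CONC) (hP : S_PAIRS) (hCORE : S_CORE)
    (hTR : S_TRANS) (n m : ℕ) (hn : 4 ≤ n) (hm : 2 ≤ m) :
    ∃ N : ℕ, n ≤ N + 4 ∧ N ≤ n ∧
      m.factorial * 2 ^ m * (N - m ^ 2 + m - 1).choose (3 * m - 1) * (m - 1) ^ (m - 1) ≤
        c n (n - m) * ((2 * m).factorial * N ^ (m - 1)) := by
  classical
  obtain ⟨T, F, hT, hF, h⟩ := c_mem hCONC n (n - m) hn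
  obtain ⟨p, X, hX, hpX, hp⟩ := hCAT n T hn hT
  obtain ⟨q, Y, hY, hqY, hq⟩ := hCAT n F hn hF
  have hcard : n ≤ (X ∩ Y).card + 4 := by
    have h1 := Finset.card_union_add_card_inter X Y
    have h2 : (X ∪ Y).card ≤ n := by
      simpa using Finset.card_le_univ (X ∪ Y)
    omega
  obtain ⟨σ, hσ⟩ := hTR (Fin n) p q (X ∩ Y) m
    (hpX.mono (by rw [Finset.coe_inter]; exact Set.inter_subset_left))
    (hqY.mono (by rw [Finset.coe_inter]; exact Set.inter_subset_right))
  have h1 := hCORE _ m σ hm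
  have h2 := hP n m p q (X ∩ Y)
  have h3 : {P : Finpartition (univ : Finset (Fin n)) |
      SepP p P ∧ SepP q P ∧ P.parts.card = n - m}.ncard ≤ common T F (n - m) := by
    refine Set.ncard_le_ncard ?_ (finpart_finite n _)
    rintro P ⟨a1, a2, a3⟩
    exact ⟨hp P a1, hq P a2, a3⟩
  refine ⟨(X ∩ Y).card, hcard, by simpa using Finset.card_le_univ (X ∩ Y), h1.trans ?_⟩
  rw [h]
  exact Nat.mul_le_mul_right _ (hσ.trans (h2.trans h3))

theorem c_avg (hCONC : S_CONC) (hAVG : S_AVG) (n m : ℕ) (hn : 4 ≤ n) (hm : 1 ≤ m)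
    (hmn : m < n) :
    (c n (n - m) : ℝ) ≤
      ∑ r ∈ Icc 1 m, (n.choose (m + r) : ℝ) * r.factorial * W m r / (m + r).factorial := by
  obtain ⟨σ, hσ⟩ := hAVG n m hm hmn
  obtain ⟨T, hT, hTS⟩ := hCONC n 1 hn
  obtain ⟨F, hF, hFS⟩ := hCONC n σ hn
  have h1 : c n (n - m) ≤ common T F (n - m) := Nat.sInf_le ⟨T, F, hT, hF, rfl⟩
  have h2 : common T F (n - m) ≤ {P : Finpartition (univ : Finset (Fin n)) |
      SepP (fun i => (i : ℕ)) P ∧ SepP (fun i => (σ i : ℕ)) P ∧ P.parts.card = n - m}.ncard := by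
    refine Set.ncard_le_ncard ?_ (finpart_finite n _)
    rintro P ⟨a1, a2, a3⟩
    exact ⟨hTS P a1, hFS P a2, a3⟩
  exact le_trans (by exact_mod_cast h1.trans h2) hσ

theorem main (hSI : S_SINGLE) (hCAT : S_CAT) (hCONC : S_CONC) (hP : S_PAIRS) (hCORE : S_CORE)
    (hTR : S_TRANS) (hAVG : S_AVG) (hU : S_UPPER) (hL : S_LOWL) (hS : S_SINL) (hN : S_NUM) :
    ∃ t₀ : ℕ, ∀ t : ℕ, t₀ ≤ t → ∀ n : ℕ, n = (100 * t) ^ 2 →
      ∃ k : ℕ, n - 100 * t < k ∧ k < n - 28 * t ∧ c n k ^ 2 < c n (k - 1) * c n (k + 1) := by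
  obtain ⟨tU, KU, hU⟩ := hU
  obtain ⟨tL, KL, hL⟩ := hL
  obtain ⟨tS, KS, hS⟩ := hS
  obtain ⟨tN, hN⟩ := hN (max KU (max KL KS))
  refine ⟨max (max tU tL) (max (max tS tN) 1), fun t ht n hn => ?_⟩
  have htU : tU ≤ t := by omega
  have htL : tL ≤ t := by omega
  have htS : tS ≤ t := by omega
  have htN : tN ≤ t := by omega
  have ht1 : 1 ≤ t := by omega
  have hnt : 10000 * t ≤ n := by rw [hn]; nlinarith
  by_contra hcon
  push Not at hcon
  have hn4 : 4 ≤ n := by omega
  have hpos : ∀ m, 28 * t ≤ m → m ≤ 100 * t → 1 ≤ c n (n - m) := by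
    intro m h1 h2
    exact le_trans (Nat.choose_pos (by omega)) (c_single hSI hCONC n m hn4 (by omega) (by omega))
  set g : ℕ → ℝ := fun m => Real.log (c n (n - m)) with hg
  have hch := chain g (28 * t) (97 * t) (100 * t) (by omega) (by omega) (by
    intro m h1 h2
    have h3 := hcon (n - m) (by omega) (by omega)
    rw [show n - m - 1 = n - (m + 1) by omega, show n - m + 1 = n - (m - 1) by omega] at h3
    have p1 : (0 : ℝ) < c n (n - (m + 1)) := by exact_mod_cast hpos (m + 1) (by omega) (by omega)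
    have p2 : (0 : ℝ) < c n (n - (m - 1)) := by exact_mod_cast hpos (m - 1) (by omega) (by omega)
    have p3 : (0 : ℝ) < c n (n - m) := by exact_mod_cast hpos m (by omega) (by omega)
    simp only [hg]
    rw [← Real.log_mul p2.ne' p1.ne', show (2 : ℝ) * Real.log (c n (n - m)) =
      Real.log ((c n (n - m) : ℝ) ^ 2) by rw [Real.log_pow]; norm_num]
    refine Real.log_le_log (mul_pos p2 p1) ?_
    rw [mul_comm]
    exact_mod_cast h3)
  have hlog : 0 ≤ Real.log t + 1 := by
    have := Real.log_nonneg (by exact_mod_cast ht1 : (1 : ℝ) ≤ t)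
    linarith
  -- upper bound
  have b2 : g (97 * t) ≤ ((97 * t : ℕ) : ℝ) * (Real.log n - Real.log (97 * t : ℕ) + 1 + 1 / 10000) +
      max KU (max KL KS) * (Real.log t + 1) := by
    have h1 := c_avg hCONC hAVG n (97 * t) hn4 (by omega) (by omega)
    have p2 : (0 : ℝ) < c n (n - 97 * t) := by
      exact_mod_cast hpos (97 * t) (by omega) (by omega)
    have h2 := Real.log_le_log p2 h1
    have h3 := hU t htU ht1 n (97 * t) hn rfl
    have h4 := mul_le_mul_of_nonneg_right (le_max_left KU (max KL KS)) hlog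
    simp only [hg]
    linarith
  have b1 : ((28 * t : ℕ) : ℝ) * (2 * Real.log n - 3 * Real.log (28 * t : ℕ) + 4 - Real.log 2 -
      3 * Real.log 3 + 3 * Real.log (1 - 0.28 ^ 2)) - max KU (max KL KS) * (Real.log t + 1) ≤
      g (28 * t) := by
    obtain ⟨N, hN1, hN2, h1⟩ := c_pairs hCAT hCONC hP hCORE hTR n (28 * t) hn4 (by omega)
    have h2 := hL t htL ht1 n (28 * t) N hn rfl hN1 hN2
    have h4 := mul_le_mul_of_nonneg_right
      ((le_max_left KL KS).trans (le_max_right KU (max KL KS))) hlog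
    have p2 : (1 : ℝ) ≤ c n (n - 28 * t) := by
      exact_mod_cast hpos (28 * t) (by omega) (by omega)
    have hNpos : 0 < N := by omega
    have hden : (0 : ℝ) < ((2 * (28 * t)).factorial * (N : ℝ) ^ (28 * t - 1)) := by
      have : (0 : ℝ) < N := by exact_mod_cast hNpos
      have : (0 : ℝ) < (2 * (28 * t)).factorial := by exact_mod_cast Nat.factorial_pos _
      positivity
    have h3 : Real.log ((28 * t).factorial * 2 ^ (28 * t) *
        (N - (28 * t) ^ 2 + 28 * t - 1).choose (3 * (28 * t) - 1) *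
        (28 * t - 1 : ℕ) ^ (28 * t - 1) /
        ((2 * (28 * t)).factorial * (N : ℝ) ^ (28 * t - 1))) ≤ g (28 * t) := by
      set Rt : ℝ := ((28 * t).factorial * 2 ^ (28 * t) *
        (N - (28 * t) ^ 2 + 28 * t - 1).choose (3 * (28 * t) - 1) *
        (28 * t - 1 : ℕ) ^ (28 * t - 1) /
        ((2 * (28 * t)).factorial * (N : ℝ) ^ (28 * t - 1))) with hRt
      have hR0 : 0 ≤ Rt := by rw [hRt]; positivity
      rcases hR0.eq_or_lt with h0 | h0
      · rw [← h0, Real.log_zero]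
        simp only [hg]
        exact Real.log_nonneg p2
      · simp only [hg]
        refine Real.log_le_log h0 ?_
        rw [hRt, div_le_iff₀ hden]
        exact_mod_cast h1
    linarith
  have b3 : ((100 * t : ℕ) : ℝ) * (Real.log n - Real.log (100 * t : ℕ) + 1) -
      max KU (max KL KS) * (Real.log t + 1) ≤ g (100 * t) := by
    have h1 := c_single hSI hCONC n (100 * t) hn4 (by omega) (by omega)
    have h2 := hS t htS ht1 n (100 * t) hn rfl
    have h4 := mul_le_mul_of_nonneg_right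
      ((le_max_right KL KS).trans (le_max_right KU (max KL KS))) hlog
    have p1 : (0 : ℝ) < n.choose (100 * t + 1) := by
      exact_mod_cast Nat.choose_pos (by omega)
    have h3 : Real.log (n.choose (100 * t + 1)) ≤ g (100 * t) := by
      simp only [hg]
      exact Real.log_le_log p1 (by exact_mod_cast h1)
    linarith
  have hnum := hN t htN n (28 * t) (97 * t) (100 * t) hn rfl rfl rfl
  have q1 : (0 : ℝ) ≤ ((100 * t : ℕ) : ℝ) - (97 * t : ℕ) := by
    have : ((97 * t : ℕ) : ℝ) ≤ (100 * t : ℕ) := by exact_mod_cast (by omega : 97 * t ≤ 100 * t)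
    linarith
  have q2 : (0 : ℝ) ≤ ((97 * t : ℕ) : ℝ) - (28 * t : ℕ) := by
    have : ((28 * t : ℕ) : ℝ) ≤ (97 * t : ℕ) := by exact_mod_cast (by omega : 28 * t ≤ 97 * t)
    linarith
  have q3 : (0 : ℝ) ≤ ((100 * t : ℕ) : ℝ) - (28 * t : ℕ) := by linarith
  have r1 := mul_le_mul_of_nonneg_left b1 q1
  have r2 := mul_le_mul_of_nonneg_left b2 q3
  have r3 := mul_le_mul_of_nonneg_left b3 q2
  linarith

end Pool.Agent.V7H41.CC
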