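import Pool.Agent.V7H41.CC.Spec

/-!
# The analytic pieces for all large `n`: `(100 t)^2 ≤ n < (100 (t + 1))^2`
-/

open Finset

namespace Pool.Agent.V7H41.CC

/-- (UPPER3) -/
def S_UPPER3 : Prop := ∃ t₀ : ℕ, ∃ K : ℝ, ∀ t : ℕ, t₀ ≤ t → 1 ≤ t → ∀ n m : ℕ,
  (100 * t) ^ 2 ≤ n → n < (100 * (t + 1)) ^ 2 → m = 97 * t →
  Real.log (∑ r ∈ Icc 1 m, (n.choose (m + r) : ℝ) * r.factorial * W m r / (m + r).factorial) ≤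
    m * (Real.log n - Real.log m + 1 + 1 / 10000) + K * (Real.log t + 1)

/-- (LOWL3) -/
def S_LOWL3 : Prop := ∃ t₀ : ℕ, ∃ K : ℝ, ∀ t : ℕ, t₀ ≤ t → 1 ≤ t → ∀ n m N : ℕ,
  (100 * t) ^ 2 ≤ n → n < (100 * (t + 1)) ^ 2 → m = 28 * t → n ≤ N + 4 → N ≤ n →
  m * (2 * Real.log n - 3 * Real.log m + 4 - Real.log 2 - 3 * Real.log 3
    + 3 * Real.log (1 - 0.28 ^ 2)) - K * (Real.log t + 1) ≤
  Real.log (m.factorial * 2 ^ m * (N - m ^ 2 + m - 1).choose (3 * m - 1) * (m - 1 : ℕ) ^ (m - 1) /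
    ((2 * m).factorial * (N : ℝ) ^ (m - 1)))

/-- (SINL3) -/
def S_SINL3 : Prop := ∃ t₀ : ℕ, ∃ K : ℝ, ∀ t : ℕ, t₀ ≤ t → 1 ≤ t → ∀ n m : ℕ,
  (100 * t) ^ 2 ≤ n → n < (100 * (t + 1)) ^ 2 → m = 100 * t →
  m * (Real.log n - Real.log m + 1) - K * (Real.log t + 1) ≤ Real.log (n.choose (m + 1))

/-- (NUM3) -/
def S_NUM3 : Prop := ∀ K : ℝ, ∃ t₀ : ℕ, ∀ t : ℕ, t₀ ≤ t → ∀ n m1 m2 m3 : ℕ,
  (100 * t) ^ 2 ≤ n → n < (100 * (t + 1)) ^ 2 → m1 = 28 * t → m2 = 97 * t → m3 = 100 * t →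
  ((m3 : ℝ) - m1) * (m2 * (Real.log n - Real.log m2 + 1 + 1 / 10000) + K * (Real.log t + 1)) <
  ((m3 : ℝ) - m2) * (m1 * (2 * Real.log n - 3 * Real.log m1 + 4 - Real.log 2 - 3 * Real.log 3
    + 3 * Real.log (1 - 0.28 ^ 2)) - K * (Real.log t + 1)) +
  ((m2 : ℝ) - m1) * (m3 * (Real.log n - Real.log m3 + 1) - K * (Real.log t + 1))

end Pool.Agent.V7H41.CC
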