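import Pool.Agent.V7H41.CC.Asm
import Pool.Agent.V7H41.CC.Spec3

open Finset

namespace Pool.Agent.V7H41.CC

theorem main3 (hSI : S_SINGLE) (hCAT : S_CAT) (hCONC : S_CONC) (hP : S_PAIRS) (hCORE : S_CORE)
    (hTR : S_TRANS) (hAVG : S_AVG) (hU : S_UPPER3) (hL : S_LOWL3) (hS : S_SINL3)
    (hN : S_NUM3) :
    ∃ t₀ : ℕ, ∀ t : ℕ, t₀ ≤ t → ∀ n : ℕ, (100 * t) ^ 2 ≤ n → n < (100 * (t + 1)) ^ 2 →
      ∃ k : ℕ, n - 100 * t < k ∧ k < n - 28 * t ∧ c n k ^ 2 < c n (k - 1) * c n (k + 1) := by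
  obtain ⟨tU, KU, hU⟩ := hU
  obtain ⟨tL, KL, hL⟩ := hL
  obtain ⟨tS, KS, hS⟩ := hS
  obtain ⟨tN, hN⟩ := hN (max KU (max KL KS))
  refine ⟨max (max tU tL) (max (max tS tN) 1), fun t ht n hn hn' => ?_⟩
  have htU : tU ≤ t := by omega
  have htL : tL ≤ t := by omega
  have htS : tS ≤ t := by omega
  have htN : tN ≤ t := by omega
  have ht1 : 1 ≤ t := by omega
  have hnt : 10000 * t ≤ n := by nlinarith
  by_contra hcon
  push Not at hcon
  have hn4 : 4 ≤ n := by omega
  have hpos : ∀ m, 28 * t ≤ m → m ≤ 100 * t → 1 ≤ c n (n - m) := by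
    intro m h1 h2
    exact le_trans (Nat.choose_pos (by omega)) (c_single hSI hCONC n m hn4 (by omega) (by omega))
  set g : ℕ → ℝ := fun m => Real.log (c n (n - m)) with hg
  have hch := chain g (28 * t) (97 * t) (100 * t) (by omega) (by omega) (by
    intro m h1 h2
    have h3 := hcon (n - m) (by omega) (by omega)
    rw [show n - m - 1 = n - (m + 1) by omega, show n - m + 1 = n - (m - 1) by omega] at h3
    have p1 : (0 : ℝ) < c n (n - (m + 1)) := by exact_mod_cast hpos (m + 1) (by omega) (by omega)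
    have p2 : (0 : ℝ) < c n (n - (m - 1)) := by exact_mod_cast hpos (m - 1) (by omega) (by omega)
    have p3 : (0 : ℝ) < c n (n - m) := by exact_mod_cast hpos m (by omega) (by omega)
    simp only [hg]
    rw [← Real.log_mul p2.ne' p1.ne', show (2 : ℝ) * Real.log (c n (n - m)) =
      Real.log ((c n (n - m) : ℝ) ^ 2) by rw [Real.log_pow]; norm_num]
    refine Real.log_le_log (mul_pos p2 p1) ?_
    rw [mul_comm]
    exact_mod_cast h3)
  have hlog : 0 ≤ Real.log t + 1 := by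
    have := Real.log_nonneg (by exact_mod_cast ht1 : (1 : ℝ) ≤ t)
    linarith
  -- upper bound
  have b2 : g (97 * t) ≤ ((97 * t : ℕ) : ℝ) * (Real.log n - Real.log (97 * t : ℕ) + 1 + 1 / 10000) +
      max KU (max KL KS) * (Real.log t + 1) := by
    have h1 := c_avg hCONC hAVG n (97 * t) hn4 (by omega) (by omega)
    have p2 : (0 : ℝ) < c n (n - 97 * t) := by
      exact_mod_cast hpos (97 * t) (by omega) (by omega)
    have h2 := Real.log_le_log p2 h1
    have h3 := hU t htU ht1 n (97 * t) hn hn' rfl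
    have h4 := mul_le_mul_of_nonneg_right (le_max_left KU (max KL KS)) hlog
    simp only [hg]
    linarith
  have b1 : ((28 * t : ℕ) : ℝ) * (2 * Real.log n - 3 * Real.log (28 * t : ℕ) + 4 - Real.log 2 -
      3 * Real.log 3 + 3 * Real.log (1 - 0.28 ^ 2)) - max KU (max KL KS) * (Real.log t + 1) ≤
      g (28 * t) := by
    obtain ⟨N, hN1, hN2, h1⟩ := c_pairs hCAT hCONC hP hCORE hTR n (28 * t) hn4 (by omega)
    have h2 := hL t htL ht1 n (28 * t) N hn hn' rfl hN1 hN2
    have h4 := mul_le_mul_of_nonneg_right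
      ((le_max_left KL KS).trans (le_max_right KU (max KL KS))) hlog
    have p2 : (1 : ℝ) ≤ c n (n - 28 * t) := by
      exact_mod_cast hpos (28 * t) (by omega) (by omega)
    have hNpos : 0 < N := by omega
    have hden : (0 : ℝ) < ((2 * (28 * t)).factorial * (N : ℝ) ^ (28 * t - 1)) := by
      have : (0 : ℝ) < N := by exact_mod_cast hNpos
      have : (0 : ℝ) < (2 * (28 * t)).factorial := by exact_mod_cast Nat.factorial_pos _
      positivity
    have h3 : Real.log ((28 * t).factorial * 2 ^ (28 * t) *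
        (N - (28 * t) ^ 2 + 28 * t - 1).choose (3 * (28 * t) - 1) *
        (28 * t - 1 : ℕ) ^ (28 * t - 1) /
        ((2 * (28 * t)).factorial * (N : ℝ) ^ (28 * t - 1))) ≤ g (28 * t) := by
      set Rt : ℝ := ((28 * t).factorial * 2 ^ (28 * t) *
        (N - (28 * t) ^ 2 + 28 * t - 1).choose (3 * (28 * t) - 1) *
        (28 * t - 1 : ℕ) ^ (28 * t - 1) /
        ((2 * (28 * t)).factorial * (N : ℝ) ^ (28 * t - 1))) with hRt
      have hR0 : 0 ≤ Rt := by rw [hRt]; positivity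
      rcases hR0.eq_or_lt with h0 | h0
      · rw [← h0, Real.log_zero]
        simp only [hg]
        exact Real.log_nonneg p2
      · simp only [hg]
        refine Real.log_le_log h0 ?_
        rw [hRt, div_le_iff₀ hden]
        exact_mod_cast h1
    linarith
  have b3 : ((100 * t : ℕ) : ℝ) * (Real.log n - Real.log (100 * t : ℕ) + 1) -
      max KU (max KL KS) * (Real.log t + 1) ≤ g (100 * t) := by
    have h1 := c_single hSI hCONC n (100 * t) hn4 (by omega) (by omega)
    have h2 := hS t htS ht1 n (100 * t) hn hn' rfl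
    have h4 := mul_le_mul_of_nonneg_right
      ((le_max_right KL KS).trans (le_max_right KU (max KL KS))) hlog
    have p1 : (0 : ℝ) < n.choose (100 * t + 1) := by
      exact_mod_cast Nat.choose_pos (by omega)
    have h3 : Real.log (n.choose (100 * t + 1)) ≤ g (100 * t) := by
      simp only [hg]
      exact Real.log_le_log p1 (by exact_mod_cast h1)
    linarith
  have hnum := hN t htN n (28 * t) (97 * t) (100 * t) hn hn' rfl rfl rfl
  have q1 : (0 : ℝ) ≤ ((100 * t : ℕ) : ℝ) - (97 * t : ℕ) := by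
    have : ((97 * t : ℕ) : ℝ) ≤ (100 * t : ℕ) := by exact_mod_cast (by omega : 97 * t ≤ 100 * t)
    linarith
  have q2 : (0 : ℝ) ≤ ((97 * t : ℕ) : ℝ) - (28 * t : ℕ) := by
    have : ((28 * t : ℕ) : ℝ) ≤ (97 * t : ℕ) := by exact_mod_cast (by omega : 28 * t ≤ 97 * t)
    linarith
  have q3 : (0 : ℝ) ≤ ((100 * t : ℕ) : ℝ) - (28 * t : ℕ) := by linarith
  have r1 := mul_le_mul_of_nonneg_left b1 q1
  have r2 := mul_le_mul_of_nonneg_left b2 q3
  have r3 := mul_le_mul_of_nonneg_left b3 q2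
  linarith

/-- for all large `n` log-concavity fails between `n - sqrt n` and `n - 0.27 sqrt n` -/
theorem final3 (h : ∃ t₀ : ℕ, ∀ t : ℕ, t₀ ≤ t → ∀ n : ℕ, (100 * t) ^ 2 ≤ n →
      n < (100 * (t + 1)) ^ 2 →
      ∃ k : ℕ, n - 100 * t < k ∧ k < n - 28 * t ∧ c n k ^ 2 < c n (k - 1) * c n (k + 1)) :
    ∃ n₀ : ℕ, ∀ n : ℕ, n₀ ≤ n → ∃ k : ℕ, 1 < k ∧ k < n ∧ (n : ℝ) - Real.sqrt n < k ∧
      (k : ℝ) < n - 0.27 * Real.sqrt n ∧ c n k ^ 2 < c n (k - 1) * c n (k + 1) := by
  obtain ⟨t₀, h⟩ := h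
  refine ⟨(100 * (max t₀ 27)) ^ 2, fun n hn => ?_⟩
  set q := Nat.sqrt n with hq
  have hq1 : q * q ≤ n := Nat.sqrt_le n
  have hq2 : n < (q + 1) * (q + 1) := Nat.lt_succ_sqrt n
  have hq3 : 100 * (max t₀ 27) ≤ q := by
    rw [hq, Nat.le_sqrt]
    rw [← sq]; exact hn
  set t := q / 100 with ht
  have ht1 : 100 * t ≤ q := Nat.mul_div_le q 100
  have ht2 : q < 100 * (t + 1) := by omega
  have ht3 : max t₀ 27 ≤ t := by omega
  have ha : (100 * t) ^ 2 ≤ n := by
    calc (100 * t) ^ 2 ≤ q ^ 2 := Nat.pow_le_pow_left ht1 2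
      _ ≤ n := by rw [sq]; exact hq1
  have hb : n < (100 * (t + 1)) ^ 2 := by
    calc n < (q + 1) ^ 2 := by rw [sq]; exact hq2
      _ ≤ (100 * (t + 1)) ^ 2 := Nat.pow_le_pow_left ht2 2
  obtain ⟨k, h1, h2, h3⟩ := h t (by omega) n ha hb
  have ht27 : 27 ≤ t := by omega
  have hnt : 10000 * t ≤ n := by nlinarith
  have hs1 : (100 * t : ℝ) ≤ Real.sqrt n := by
    apply Real.le_sqrt_of_sq_le
    exact_mod_cast ha
  have hs2 : Real.sqrt n < 100 * (t + 1) := by
    rw [Real.sqrt_lt' (by positivity)]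
    exact_mod_cast hb
  have ht27' : (27 : ℝ) ≤ t := by exact_mod_cast ht27
  refine ⟨k, by omega, by omega, ?_, ?_, h3⟩
  · have : n < k + 100 * t := by omega
    have : (n : ℝ) < k + 100 * t := by exact_mod_cast this
    linarith
  · have : k + 28 * t < n := by omega
    have : (k : ℝ) + 28 * t < n := by exact_mod_cast this
    have : (0.27 : ℝ) * Real.sqrt n < 28 * t := by nlinarith
    linarith

end Pool.Agent.V7H41.CC
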