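import Pool.Agent.V7H41.CC.Spec

/-!
# Both sequences outside of the last `2 sqrt n` indices: statements of the parts
-/

open Finset

namespace Pool.Agent.V7H41.CC

/-- `s_{n,k}`: the minimum over all pairs of phylogenetic trees. -/
noncomputable def s (n k : ℕ) : ℕ :=
  sInf {N | ∃ T F : PhyloTree n, N = common T F k}

/-- (FACT) -/
def S_FACT : Prop := ∀ N : ℕ, 4 ≤ N →
  ∑ a ∈ Icc 2 (N - 2), a.factorial * (N - a).factorial ≤ 7 * (N - 2).factorial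

/-- (WB) the elementary bound for `W`. -/
def S_WB : Prop := ∀ m r : ℕ, 1 ≤ r → r ≤ m → W m r ≤ 7 ^ (r - 1) * (m - r + 2).factorial

/-- (RHO) -/
def S_RHO : Prop := ∃ n₀ : ℕ, ∀ n m : ℕ, n₀ ≤ n → 4 * n ≤ m ^ 2 → m < n →
  (∑ r ∈ Icc 2 m, (7 * (n : ℝ)) ^ (r - 1) * ((m + 1).factorial : ℝ) * (r.factorial : ℝ) *
    ((m - r + 2).factorial : ℝ) / ((m + r).factorial : ℝ) ^ 2) ≤ 100 * (n : ℝ) / (m : ℝ) ^ 3

/-- (AVB) the average is close to the binomial coefficient. -/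
def S_AVB : Prop := ∃ n₀ : ℕ, ∀ n m : ℕ, n₀ ≤ n → 4 * n ≤ m ^ 2 → m < n →
  ∑ r ∈ Icc 1 m, (n.choose (m + r) : ℝ) * r.factorial * W m r / (m + r).factorial ≤
    (n.choose (m + 1) : ℝ) * (1 + 100 * (n : ℝ) / (m : ℝ) ^ 3)

/-- (UNI) monotonicity and log-concavity of a sequence close to the binomial coefficients. -/
def S_UNI : Prop := ∃ n₀ : ℕ, ∀ n : ℕ, n₀ ≤ n → ∀ a : ℕ → ℝ,
  (∀ m, 1 ≤ m → m < n → (n.choose (m + 1) : ℝ) ≤ a (n - m)) →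
  (∀ m, 4 * n ≤ m ^ 2 → m < n → a (n - m) ≤
    (n.choose (m + 1) : ℝ) * (1 + 100 * (n : ℝ) / (m : ℝ) ^ 3)) →
  (∀ k, 1 ≤ k → 2 * k ≤ n → a k ≤ a (k + 1)) ∧
  (∀ k, n + 2 ≤ 2 * k → k + 1 < n → 4 * n ≤ (n - (k + 1)) ^ 2 → a (k + 1) ≤ a k) ∧
  (∀ k, 2 ≤ k → k < n → 400 * n ≤ (n - k) ^ 2 → a (k - 1) * a (k + 1) ≤ a k ^ 2)

end Pool.Agent.V7H41.CC
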