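import Pool.Agent.V7H41.CC.Asm
import Pool.Agent.V7H41.CC.Spec2

open Finset

namespace Pool.Agent.V7H41.CC

theorem s_mem (hCONC : S_CONC) (n k : ℕ) (hn : 4 ≤ n) :
    ∃ T F : PhyloTree n, s n k = common T F k := by
  obtain ⟨T, hT, _⟩ := hCONC n 1 hn
  exact Nat.sInf_mem (s := {N | ∃ T F : PhyloTree n, N = common T F k}) ⟨_, T, T, rfl⟩

theorem s_single (hS : S_SINGLE) (hCONC : S_CONC) (n m : ℕ) (hn : 4 ≤ n) (hm : 1 ≤ m)
    (hmn : m + 1 ≤ n) : n.choose (m + 1) ≤ s n (n - m) := by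
  obtain ⟨T, F, h⟩ := s_mem hCONC n (n - m) hn
  rw [h]
  exact hS n m T F hm hmn

theorem s_le_c (hCONC : S_CONC) (n k : ℕ) (hn : 4 ≤ n) : s n k ≤ c n k := by
  obtain ⟨T, F, _, _, h⟩ := c_mem hCONC n k hn
  rw [h]
  exact Nat.sInf_le ⟨T, F, rfl⟩

/-- chaining of monotonicity -/
theorem mono_chain (a : ℕ → ℝ) (l p : ℕ) (h : ∀ k, l ≤ k → k + 1 ≤ p → a k ≤ a (k + 1)) :
    ∀ j k, l ≤ j → j ≤ k → k ≤ p → a j ≤ a k := by
  intro j k hj hjk
  induction k, hjk using Nat.le_induction with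
  | base => intro _; exact le_rfl
  | succ k hjk ih =>
    intro hk
    exact (ih (by omega)).trans (h k (hj.trans hjk) hk)

theorem anti_chain (a : ℕ → ℝ) (p : ℕ) (Q : ℕ → Prop) (hQ : ∀ k, Q (k + 1) → Q k)
    (h : ∀ k, p ≤ k → Q (k + 1) → a (k + 1) ≤ a k) :
    ∀ j k, p ≤ j → j ≤ k → Q k → a k ≤ a j := by
  intro j k hj hjk
  induction k, hjk using Nat.le_induction with
  | base => intro _; exact le_rfl
  | succ k hjk ih =>
    intro hk
    exact (h k (hj.trans hjk) hk).trans (ih (hQ k hk))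

/-- unimodality on the range `(n - k)^2 ≥ 4 n` from the steps -/
theorem uni_of_steps (n : ℕ) (a : ℕ → ℝ)
    (h1 : ∀ k, 1 ≤ k → 2 * k ≤ n → a k ≤ a (k + 1))
    (Q : ℕ → Prop) (hQ : ∀ k, Q (k + 1) → Q k)
    (h2 : ∀ k, n + 2 ≤ 2 * k → Q (k + 1) → a (k + 1) ≤ a k) :
    ∃ p, n ≤ 2 * p ∧ 2 * p ≤ n + 3 ∧ (∀ j k, 1 ≤ j → j ≤ k → k ≤ p → a j ≤ a k) ∧
      (∀ j k, p ≤ j → j ≤ k → Q k → a k ≤ a j) := by
  rcases Nat.even_or_odd' n with ⟨b, hb | hb⟩
  · -- n = 2 b, peak b + 1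
    refine ⟨b + 1, by omega, by omega, ?_, ?_⟩
    · exact mono_chain a 1 (b + 1) (fun k hk hk2 => h1 k hk (by omega))
    · exact anti_chain a (b + 1) Q hQ (fun k hk hk2 => h2 k (by omega) hk2)
  · -- n = 2 b + 1
    by_cases hc : a (b + 1) ≤ a (b + 2)
    · refine ⟨b + 2, by omega, by omega, ?_, ?_⟩
      · refine mono_chain a 1 (b + 2) (fun k hk hk2 => ?_)
        by_cases hk3 : k = b + 1
        · subst hk3; exact hc
        · exact h1 k hk (by omega)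
      · exact anti_chain a (b + 2) Q hQ (fun k hk hk2 => h2 k (by omega) hk2)
    · refine ⟨b + 1, by omega, by omega, ?_, ?_⟩
      · exact mono_chain a 1 (b + 1) (fun k hk hk2 => h1 k hk (by omega))
      · refine anti_chain a (b + 1) Q hQ (fun k hk hk2 => ?_)
        by_cases hk3 : k = b + 1
        · subst hk3; exact (not_le.1 hc).le
        · exact h2 k (by omega) hk2

end Pool.Agent.V7H41.CC
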