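import Pool.Agent.V7H41.CC.Spec2

/-!
# Up to the transition (`n - k ≥ 0.97 sqrt n`), and a lower bound for all trees
-/

open Finset

namespace Pool.Agent.V7H41.CC

/-- (AVB97) -/
def S_AVB97 : Prop := ∃ n₀ : ℕ, ∃ C : ℝ, ∀ n m : ℕ, n₀ ≤ n → 97 ^ 2 * n ≤ (100 * m) ^ 2 → m < n →
  ∑ r ∈ Icc 1 m, (n.choose (m + r) : ℝ) * r.factorial * W m r / (m + r).factorial ≤
    (n.choose (m + 1) : ℝ) * (1 + C * (n : ℝ) / (m : ℝ) ^ 3)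

/-- (STEP97) -/
def S_STEP97 : Prop := ∀ C : ℝ, ∃ n₀ : ℕ, ∀ n : ℕ, n₀ ≤ n → ∀ a : ℕ → ℝ,
  (∀ m, 1 ≤ m → m < n → (n.choose (m + 1) : ℝ) ≤ a (n - m)) →
  (∀ m, 97 ^ 2 * n ≤ (100 * m) ^ 2 → m < n → a (n - m) ≤
    (n.choose (m + 1) : ℝ) * (1 + C * (n : ℝ) / (m : ℝ) ^ 3)) →
  ∀ k, n + 2 ≤ 2 * k → k + 1 < n → 97 ^ 2 * n ≤ (100 * (n - (k + 1))) ^ 2 → a (k + 1) ≤ a k

/-! ### All trees: the lower bound `s_{n,n-m} ≥ (n^2/(10^4 m^2))^m / m!` -/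

/-- (CUT) cutting off a piece of a tree. -/
def S_CUT : Prop := ∀ (n : ℕ) (T : PhyloTree n) (L : Finset (Fin n)) (s : ℕ), 1 ≤ s →
  2 * s ≤ L.card → ∃ X : Finset (Fin n), X ⊆ L ∧ s ≤ X.card ∧ X.card < 2 * s ∧
    ∀ A B : Finset (Fin n), A ⊆ X → B ⊆ L \ X → Disjoint (T.span A) (T.span B)

/-- (PIECES) many separated pieces. -/
def S_PIECES : Prop := ∀ (n : ℕ) (T : PhyloTree n) (s : ℕ), 1 ≤ s →
  ∃ (q : ℕ) (X : Fin q → Finset (Fin n)), (∀ i, s ≤ (X i).card ∧ (X i).card < 2 * s) ∧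
    n < (∑ i, (X i).card) + 2 * s ∧ (∀ i j, i ≠ j → Disjoint (X i) (X j)) ∧
    ∀ i j, i ≠ j → ∀ A B : Finset (Fin n), A ⊆ X i → B ⊆ X j → Disjoint (T.span A) (T.span B)

/-- Sets of `m` pairs whose paths are pairwise disjoint in both trees. -/
def IsTF {n : ℕ} (T F : PhyloTree n) (m : ℕ) (Q : Finset (Finset (Fin n))) : Prop :=
  Q.card = m ∧ (∀ A ∈ Q, A.card = 2) ∧
    ∀ A ∈ Q, ∀ B ∈ Q, A ≠ B → Disjoint (T.span A) (T.span B) ∧ Disjoint (F.span A) (F.span B)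

/-- (TFP) such a set gives a common convex partition with `n - m` classes. -/
def S_TFP : Prop := ∀ (n m : ℕ) (T F : PhyloTree n),
  {Q | IsTF T F m Q}.ncard ≤ common T F (n - m)

/-- (GREEDY) two families of separated pieces of sizes between `s` and `2 s`: at least
`(s^2/8)^m / m!` systems. -/
def S_GREEDY : Prop := ∀ (n m s : ℕ), 1 ≤ s → 16 * s * (m + 1) ≤ n → 4 * n ≤ s ^ 2 →
  ∀ (T F : PhyloTree n) (q q' : ℕ) (X : Fin q → Finset (Fin n)) (Y : Fin q' → Finset (Fin n)),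
  (∀ i, s ≤ (X i).card ∧ (X i).card < 2 * s) → n < (∑ i, (X i).card) + 2 * s →
  (∀ i j, i ≠ j → Disjoint (X i) (X j)) →
  (∀ i j, i ≠ j → ∀ A B : Finset (Fin n), A ⊆ X i → B ⊆ X j → Disjoint (T.span A) (T.span B)) →
  (∀ i, s ≤ (Y i).card ∧ (Y i).card < 2 * s) → n < (∑ i, (Y i).card) + 2 * s →
  (∀ i j, i ≠ j → Disjoint (Y i) (Y j)) →
  (∀ i j, i ≠ j → ∀ A B : Finset (Fin n), A ⊆ Y i → B ⊆ Y j → Disjoint (F.span A) (F.span B)) →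
  ((s : ℝ) ^ 2 / 8) ^ m / m.factorial ≤ {Q | IsTF T F m Q}.ncard

/-- (SFIN) the final inequality. -/
def S_SFIN : Prop := ∃ n₀ : ℕ, ∀ n m : ℕ, n₀ ≤ n → 2 ≤ m → (200 * m) ^ 2 ≤ n →
  ∃ s : ℕ, 1 ≤ s ∧ 16 * s * (m + 1) ≤ n ∧ 4 * n ≤ s ^ 2 ∧
    ((n : ℝ) ^ 2 / (10000 * (m : ℝ) ^ 2)) ^ m ≤ ((s : ℝ) ^ 2 / 8) ^ m ∧
    2 * (n.choose (m + 1) : ℝ) ≤ ((n : ℝ) ^ 2 / (10000 * (m : ℝ) ^ 2)) ^ m / m.factorial

end Pool.Agent.V7H41.CC
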