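import Pool.Agent.V7H41.CC.Bulk
import Pool.Agent.V7H41.CC.Spec4

open Finset

namespace Pool.Agent.V7H41.CC

theorem bulk (hSI : S_SINGLE) (hCONC : S_CONC) (hAVG : S_AVG) (hAVB : S_AVB) (hUNI : S_UNI)
    (hA97 : S_AVB97) (hS97 : S_STEP97) :
    ∃ n₀ : ℕ, ∃ C : ℝ, ∀ n : ℕ, n₀ ≤ n → ∀ a : ℕ → ℕ, (a = c n ∨ a = s n) →
      (∀ k, 1 ≤ k → k < n → 97 ^ 2 * n ≤ (100 * (n - k)) ^ 2 →
        (n.choose (k - 1) : ℝ) ≤ a k ∧
        (a k : ℝ) ≤ n.choose (k - 1) * (1 + C * (n : ℝ) / ((n - k : ℕ) : ℝ) ^ 3)) ∧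
      (∃ p, n ≤ 2 * p ∧ 2 * p ≤ n + 3 ∧ (∀ j k, 1 ≤ j → j ≤ k → k ≤ p → a j ≤ a k) ∧
        (∀ j k, p ≤ j → j ≤ k → k < n → 97 ^ 2 * n ≤ (100 * (n - k)) ^ 2 → a k ≤ a j)) ∧
      (∀ k, 2 ≤ k → k < n → 400 * n ≤ (n - k) ^ 2 → a (k - 1) * a (k + 1) ≤ a k ^ 2) := by
  obtain ⟨n1, hAVB⟩ := hAVB
  obtain ⟨n2, hUNI⟩ := hUNI
  obtain ⟨n3, C, hA97⟩ := hA97
  obtain ⟨n4, hS97⟩ := hS97 C
  refine ⟨max (max n1 n2) (max (max n3 n4) 4), C, fun n hn a ha => ?_⟩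
  have hn4 : 4 ≤ n := by omega
  have low : ∀ m, 1 ≤ m → m < n → (n.choose (m + 1) : ℝ) ≤ (a (n - m) : ℝ) := by
    intro m hm hmn
    rcases ha with rfl | rfl
    · exact_mod_cast c_single hSI hCONC n m hn4 hm (by omega)
    · exact_mod_cast s_single hSI hCONC n m hn4 hm (by omega)
  have upp : ∀ m, 1 ≤ m → m < n → (a (n - m) : ℝ) ≤
      ∑ r ∈ Icc 1 m, (n.choose (m + r) : ℝ) * r.factorial * W m r / (m + r).factorial := by
    intro m hm hmn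
    rcases ha with rfl | rfl
    · exact c_avg hCONC hAVG n m hn4 hm hmn
    · refine le_trans ?_ (c_avg hCONC hAVG n m hn4 hm hmn)
      exact_mod_cast s_le_c hCONC n (n - m) hn4
  have up1 : ∀ m, 4 * n ≤ m ^ 2 → m < n → (a (n - m) : ℝ) ≤
      (n.choose (m + 1) : ℝ) * (1 + 100 * (n : ℝ) / (m : ℝ) ^ 3) := by
    intro m hm hmn
    have : 1 ≤ m := by
      rcases Nat.eq_zero_or_pos m with h | h
      · subst h; omega
      · exact h
    exact (upp m this hmn).trans (hAVB n m (by omega) hm hmn)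
  have up2 : ∀ m, 97 ^ 2 * n ≤ (100 * m) ^ 2 → m < n → (a (n - m) : ℝ) ≤
      (n.choose (m + 1) : ℝ) * (1 + C * (n : ℝ) / (m : ℝ) ^ 3) := by
    intro m hm hmn
    have : 1 ≤ m := by
      rcases Nat.eq_zero_or_pos m with h | h
      · subst h; omega
      · exact h
    exact (upp m this hmn).trans (hA97 n m (by omega) hm hmn)
  obtain ⟨u1, _, u3⟩ := hUNI n (by omega) (fun k => (a k : ℝ)) low up1
  have u2 := hS97 n (by omega) (fun k => (a k : ℝ)) low up2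
  refine ⟨?_, ?_, ?_⟩
  · intro k hk hkn hk2
    have h1 := low (n - k) (by omega) (by omega)
    have h2 := up2 (n - k) hk2 (by omega)
    have e1 : n - (n - k) = k := by omega
    have e2 : n.choose (n - k + 1) = n.choose (k - 1) := by
      rw [show n - k + 1 = n - (k - 1) by omega]
      exact Nat.choose_symm (by omega)
    rw [e1, e2] at h1 h2
    exact ⟨h1, h2⟩
  · obtain ⟨p, p1, p2, p3, p4⟩ := uni_of_steps n (fun k => (a k : ℝ)) u1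
      (fun k => k < n ∧ 97 ^ 2 * n ≤ (100 * (n - k)) ^ 2)
      (fun k hk => ⟨by omega, hk.2.trans (Nat.pow_le_pow_left (by omega) 2)⟩)
      (fun k hk hq => u2 k hk hq.1 hq.2)
    refine ⟨p, p1, p2, fun j k h1 h2 h3 => ?_, fun j k h1 h2 h3 h4 => ?_⟩
    · exact_mod_cast p3 j k h1 h2 h3
    · exact_mod_cast p4 j k h1 h2 ⟨h3, h4⟩
  · intro k h1 h2 h3
    have := u3 k h1 h2 h3
    exact_mod_cast this

end Pool.Agent.V7H41.CC
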