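import Mathlib

/-! The potential for the word lemma. -/

open Finset

namespace Pool.Agent.V7H41.CC

/-- AM-GM: the harmonic mean is at most the geometric mean. -/
theorem harm_le {ι : Type*} (S : Finset ι) (u : ι → ℝ) (hS : S.Nonempty)
    (hu : ∀ i ∈ S, 0 < u i) :
    ((S.card : ℝ) / ∑ i ∈ S, (u i)⁻¹) ^ S.card ≤ ∏ i ∈ S, u i := by
  have hK : (0 : ℝ) < S.card := by exact_mod_cast hS.card_pos
  have hσ : 0 < ∑ i ∈ S, (u i)⁻¹ := Finset.sum_pos (fun i hi => inv_pos.2 (hu i hi)) hS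
  have h1 := Real.geom_mean_le_arith_mean_weighted S (fun _ => (1 : ℝ) / S.card)
    (fun i => (u i)⁻¹) (fun i _ => by positivity)
    (by rw [Finset.sum_const, nsmul_eq_mul]; field_simp) (fun i hi => (inv_pos.2 (hu i hi)).le)
  have h2 : ∏ i ∈ S, (u i)⁻¹ ≤ ((∑ i ∈ S, (u i)⁻¹) / S.card) ^ S.card := by
    have h3 : (∏ i ∈ S, ((u i)⁻¹) ^ ((1 : ℝ) / S.card)) ^ S.card = ∏ i ∈ S, (u i)⁻¹ := by
      rw [← Finset.prod_pow]
      refine Finset.prod_congr rfl fun i hi => ?_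
      rw [← Real.rpow_natCast, ← Real.rpow_mul (inv_pos.2 (hu i hi)).le]
      have : (1 : ℝ) / S.card * (S.card : ℝ) = 1 := by field_simp
      rw [this, Real.rpow_one]
    rw [← h3]
    refine pow_le_pow_left₀ (Finset.prod_nonneg fun i hi =>
      Real.rpow_nonneg (inv_pos.2 (hu i hi)).le _) (h1.trans (le_of_eq ?_)) _
    rw [← Finset.mul_sum]; ring
  have hP : 0 < ∏ i ∈ S, u i := Finset.prod_pos hu
  rw [Finset.prod_inv_distrib] at h2
  have h4 : ((S.card : ℝ) / ∑ i ∈ S, (u i)⁻¹) ^ S.card =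
      (((∑ i ∈ S, (u i)⁻¹) / S.card) ^ S.card)⁻¹ := by
    rw [← inv_pow, inv_div]
  rw [h4]
  exact (inv_le_comm₀ (by positivity) hP).2 h2

/-- the derivative estimate -/
theorem deriv_le (K : ℕ) (hK : 1 ≤ K) (s P y : ℝ) (hs : 0 ≤ s) (hP : 0 < P) (hy : 0 < y)
    (h : ((K : ℝ) / (y⁻¹ + s)) ^ K ≤ y * P) :
    (K : ℝ) * ((K * y / (1 + s * y)) ^ (2 * K - 2) * (K / (1 + s * y) ^ 2)) ≤ P ^ 2 := by
  have h1 : (0 : ℝ) < 1 + s * y := by positivity
  have h2 : (K : ℝ) / (y⁻¹ + s) = K * y / (1 + s * y) := by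
    field_simp
  rw [h2] at h
  have h3 : (0 : ℝ) ≤ K * y / (1 + s * y) := by positivity
  have h4 : ((K * y / (1 + s * y)) ^ K) ^ 2 ≤ (y * P) ^ 2 := pow_le_pow_left₀ (by positivity) h 2
  have h5 : (K : ℝ) * ((K * y / (1 + s * y)) ^ (2 * K - 2) * (K / (1 + s * y) ^ 2)) * y ^ 2 =
      ((K * y / (1 + s * y)) ^ K) ^ 2 := by
    rw [← pow_mul, show K * 2 = (2 * K - 2) + 2 by omega, pow_add]
    have h6 : (K * y / (1 + s * y)) ^ 2 = K * (K / (1 + s * y) ^ 2) * y ^ 2 := by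
      field_simp
    rw [h6]; ring
  have h7 : (K : ℝ) * ((K * y / (1 + s * y)) ^ (2 * K - 2) * (K / (1 + s * y) ^ 2)) * y ^ 2 ≤
      P ^ 2 * y ^ 2 := by rw [h5]; nlinarith [h4]
  exact le_of_mul_le_mul_right h7 (by positivity)

/-- the increment of the first part of the potential -/
theorem incr (K : ℕ) (hK : 1 ≤ K) (s P x x' : ℝ) (hs : 0 ≤ s) (hP : 0 < P) (hx : 0 ≤ x)
    (hxx : x ≤ x') (h : ∀ y : ℝ, 0 < y → ((K : ℝ) / (y⁻¹ + s)) ^ K ≤ y * P) :
    (K : ℝ) / (2 * K - 1) * ((K * x' / (1 + s * x')) ^ (2 * K - 1) -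
      (K * x / (1 + s * x)) ^ (2 * K - 1)) ≤ P ^ 2 * (x' - x) := by
  have hK' : (0 : ℝ) < 2 * K - 1 := by
    have : (1 : ℝ) ≤ K := by exact_mod_cast hK
    linarith
  let φ : ℝ → ℝ := fun y => P ^ 2 * y - (K : ℝ) / (2 * K - 1) *
    (K * y / (1 + s * y)) ^ (2 * K - 1)
  have hd : ∀ y : ℝ, 0 ≤ y → HasDerivAt φ (P ^ 2 * 1 - (K : ℝ) / (2 * K - 1) *
      (((2 * K - 1 : ℕ) : ℝ) * (K * y / (1 + s * y)) ^ (2 * K - 1 - 1) *
        (((K * 1) * (1 + s * y) - (K * y) * (s * 1)) / (1 + s * y) ^ 2))) y := by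
    intro y hy
    have h1 : (1 + s * y) ≠ 0 := by positivity
    have e1 : HasDerivAt (fun y : ℝ => (K : ℝ) * y) (K * 1) y := (hasDerivAt_id y).const_mul _
    have e2 : HasDerivAt (fun y : ℝ => 1 + s * y) (s * 1) y :=
      ((hasDerivAt_id y).const_mul s).const_add 1
    have e3 := (e1.div e2 h1).pow (2 * K - 1)
    exact ((hasDerivAt_id y).const_mul (P ^ 2)).sub (e3.const_mul ((K : ℝ) / (2 * K - 1)))
  have hmono : MonotoneOn φ (Set.Ici 0) := by
    refine monotoneOn_of_deriv_nonneg (convex_Ici 0)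
      (fun y hy => (hd y hy).continuousAt.continuousWithinAt)
      (fun y hy => (hd y (interior_subset hy)).differentiableAt.differentiableWithinAt) ?_
    intro y hy
    rw [interior_Ici] at hy
    have hy : 0 < y := hy
    rw [(hd y hy.le).deriv]
    have h2 := deriv_le K hK s P y hs hP hy (h y hy)
    have h1 : (1 + s * y) ≠ 0 := by positivity
    have h3 : (K : ℝ) / (2 * K - 1) *
      (((2 * K - 1 : ℕ) : ℝ) * (K * y / (1 + s * y)) ^ (2 * K - 1 - 1) *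
        (((K * 1) * (1 + s * y) - (K * y) * (s * 1)) / (1 + s * y) ^ 2)) =
        (K : ℝ) * ((K * y / (1 + s * y)) ^ (2 * K - 2) * (K / (1 + s * y) ^ 2)) := by
      rw [Nat.cast_sub (by omega : 1 ≤ 2 * K), show 2 * K - 1 - 1 = 2 * K - 2 by omega]
      have : ((K * 1) * (1 + s * y) - (K * y) * (s * 1)) = (K : ℝ) := by ring
      rw [this]
      push_cast
      have hne : (2 * (K : ℝ) - 1) ≠ 0 := hK'.ne'
      rw [show (K : ℝ) / (2 * K - 1) * ((2 * K - 1) * (K * y / (1 + s * y)) ^ (2 * K - 2) *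
        (K / (1 + s * y) ^ 2)) = ((K : ℝ) / (2 * K - 1) * (2 * K - 1)) *
        ((K * y / (1 + s * y)) ^ (2 * K - 2) * (K / (1 + s * y) ^ 2)) by ring,
        div_mul_cancel₀ _ hne]
    rw [h3]; linarith
  have := hmono (show x ∈ Set.Ici (0 : ℝ) from hx) (show x' ∈ Set.Ici (0 : ℝ) from hx.trans hxx) hxx
  simp only [φ] at this
  linarith

/-- The potential. -/
noncomputable def Hf {ι : Type*} (S : Finset ι) (u : ι → ℝ) : ℝ :=
  open Classical in
  if ∀ i ∈ S, 0 < u i then (S.card : ℝ) / ∑ i ∈ S, (u i)⁻¹ else 0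

noncomputable def Ff {ι : Type*} (S : Finset ι) (u : ι → ℝ) : ℝ :=
  (S.card : ℝ) / (2 * S.card - 1) * Hf S u ^ (2 * S.card - 1) - 1 / 2 * ∏ i ∈ S, u i ^ 2

theorem Hf_eq {ι : Type*} [DecidableEq ι] (S : Finset ι) (u : ι → ℝ) (j : ι) (hj : j ∈ S)
    (h : ∀ i ∈ S.erase j, 0 < u i) (h0 : 0 ≤ u j) :
    Hf S u = S.card * u j / (1 + (∑ i ∈ S.erase j, (u i)⁻¹) * u j) := by
  unfold Hf
  split_ifs with h1
  · have hj' := h1 j hj
    rw [← Finset.add_sum_erase S _ hj]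
    have hs : 0 ≤ ∑ i ∈ S.erase j, (u i)⁻¹ := Finset.sum_nonneg fun i hi => (inv_pos.2 (h i hi)).le
    have h2 : (u j)⁻¹ + ∑ i ∈ S.erase j, (u i)⁻¹ ≠ 0 := by positivity
    have h3 : 1 + (∑ i ∈ S.erase j, (u i)⁻¹) * u j ≠ 0 := by positivity
    field_simp
  · have : u j = 0 := by
      by_contra h2
      refine h1 fun i hi => ?_
      by_cases hij : i = j
      · subst hij; exact lt_of_le_of_ne h0 (Ne.symm h2)
      · exact h i (Finset.mem_erase.2 ⟨hij, hi⟩)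
    rw [this]; simp

theorem Ff_step {ι : Type*} [DecidableEq ι] (S : Finset ι) (u u' : ι → ℝ) (j : ι) (hj : j ∈ S)
    (hu : ∀ i ∈ S, 0 ≤ u i) (h1 : ∀ i ∈ S.erase j, u' i = u i) (h2 : u j ≤ u' j) :
    Ff S u' - Ff S u ≤ (∏ i ∈ S.erase j, u i ^ 2) *
      ((u' j - u j) - (u' j ^ 2 - u j ^ 2) / 2) := by
  have hSn : S.Nonempty := ⟨j, hj⟩
  have hK : 1 ≤ S.card := hSn.card_pos
  have e1 : ∏ i ∈ S, u i ^ 2 = u j ^ 2 * ∏ i ∈ S.erase j, u i ^ 2 :=
    (Finset.mul_prod_erase S (fun i => u i ^ 2) hj).symm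
  have e2 : ∏ i ∈ S, u' i ^ 2 = u' j ^ 2 * ∏ i ∈ S.erase j, u i ^ 2 := by
    rw [← Finset.mul_prod_erase S (fun i => u' i ^ 2) hj]
    congr 1
    exact Finset.prod_congr rfl fun i hi => by rw [h1 i hi]
  have key : (S.card : ℝ) / (2 * S.card - 1) * (Hf S u' ^ (2 * S.card - 1) -
      Hf S u ^ (2 * S.card - 1)) ≤ (∏ i ∈ S.erase j, u i ^ 2) * (u' j - u j) := by
    by_cases h0 : ∀ i ∈ S.erase j, 0 < u i
    · have hs : 0 ≤ ∑ i ∈ S.erase j, (u i)⁻¹ :=
        Finset.sum_nonneg fun i hi => (inv_pos.2 (h0 i hi)).le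
      have hP : 0 < ∏ i ∈ S.erase j, u i := Finset.prod_pos h0
      have h3 : ∀ i ∈ S.erase j, 0 < u' i := fun i hi => by rw [h1 i hi]; exact h0 i hi
      rw [Hf_eq S u j hj h0 (hu j hj), Hf_eq S u' j hj h3 ((hu j hj).trans h2)]
      have h4 : ∑ i ∈ S.erase j, (u' i)⁻¹ = ∑ i ∈ S.erase j, (u i)⁻¹ :=
        Finset.sum_congr rfl fun i hi => by rw [h1 i hi]
      rw [h4, Finset.prod_pow]
      refine incr S.card hK _ _ (u j) (u' j) hs hP (hu j hj) h2 ?_
      intro y hy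
      have h5 := harm_le S (Function.update u j y) hSn (fun i hi => by
        by_cases hij : i = j
        · subst hij; simpa using hy
        · rw [Function.update_of_ne hij]; exact h0 i (Finset.mem_erase.2 ⟨hij, hi⟩))
      rw [← Finset.add_sum_erase S _ hj, ← Finset.mul_prod_erase S _ hj] at h5
      rw [Function.update_self] at h5
      have h6 : ∑ x ∈ S.erase j, (Function.update u j y x)⁻¹ = ∑ x ∈ S.erase j, (u x)⁻¹ :=
        Finset.sum_congr rfl fun i hi => by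
          rw [Function.update_of_ne (Finset.ne_of_mem_erase hi)]
      have h7 : ∏ x ∈ S.erase j, (Function.update u j y x) = ∏ x ∈ S.erase j, u x :=
        Finset.prod_congr rfl fun i hi => by
          rw [Function.update_of_ne (Finset.ne_of_mem_erase hi)]
      rw [h6, h7] at h5
      exact h5
    · push Not at h0
      obtain ⟨i, hi, hi0⟩ := h0
      have hiz : u i = 0 := le_antisymm hi0 (hu i (Finset.mem_of_mem_erase hi))
      have hH : Hf S u = 0 := by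
        unfold Hf
        rw [if_neg]
        intro h; have := h i (Finset.mem_of_mem_erase hi); linarith
      have hH' : Hf S u' = 0 := by
        unfold Hf
        rw [if_neg]
        intro h; have := h i (Finset.mem_of_mem_erase hi)
        rw [h1 i hi] at this; linarith
      rw [hH, hH', sub_self, mul_zero]
      exact mul_nonneg (Finset.prod_nonneg fun i _ => sq_nonneg _) (sub_nonneg.2 h2)
  unfold Ff
  rw [e1, e2]
  nlinarith [key]

theorem Ff_zero {ι : Type*} (S : Finset ι) (hS : S.Nonempty) : Ff S (fun _ => 0) = 0 := by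
  obtain ⟨i, hi⟩ := hS
  have h0 : Hf S (fun _ => (0:ℝ)) = 0 := by
    unfold Hf
    rw [if_neg]
    intro h; exact lt_irrefl _ (h i hi)
  have hK : 1 ≤ S.card := Finset.card_pos.2 ⟨i, hi⟩
  unfold Ff
  rw [h0, zero_pow (by omega), Finset.prod_eq_zero hi (by simp)]
  simp

theorem Ff_one {ι : Type*} (S : Finset ι) (hS : S.Nonempty) (u : ι → ℝ) (hu : ∀ i ∈ S, u i = 1) :
    Ff S u = 1 / (2 * (2 * S.card - 1)) := by
  have hK : 1 ≤ S.card := hS.card_pos
  have hK' : (1 : ℝ) ≤ S.card := by exact_mod_cast hK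
  have h0 : Hf S u = 1 := by
    unfold Hf
    rw [if_pos (fun i hi => by rw [hu i hi]; exact one_pos)]
    rw [Finset.sum_congr rfl (fun i hi => by rw [hu i hi] : ∀ i ∈ S, (u i)⁻¹ = (1:ℝ)⁻¹)]
    rw [inv_one, Finset.sum_const, nsmul_eq_mul, mul_one]
    exact div_self (by linarith)
  unfold Ff
  rw [h0, one_pow, Finset.prod_congr rfl (fun i hi => by rw [hu i hi] : ∀ i ∈ S, u i ^ 2 = (1:ℝ) ^ 2)]
  simp only [one_pow, Finset.prod_const_one, mul_one]
  have h3 : (2 * (S.card : ℝ) - 1) ≠ 0 := by linarith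
  have h4 : (2 : ℝ) * (2 * S.card - 1) ≠ 0 := mul_ne_zero two_ne_zero h3
  rw [div_sub_div _ _ h3 two_ne_zero, div_eq_div_iff (mul_ne_zero h3 two_ne_zero) h4]
  ring

end Pool.Agent.V7H41.CC
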