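import Pool.Agent.V7H41.CC.Rineq

open Finset

namespace Pool.Agent.V7H41.CC

/-- the pairs `(b, a)` of the last interval -/
def lastP {ι : Type*} [DecidableEq ι] (w : ℕ → ι) (S : Finset ι) (t : ℕ) : Finset (ℕ × ℕ) :=
  (range t ×ˢ range t).filter (fun p => p.2 < p.1 ∧ w p.2 = w p.1 ∧ w p.1 ∈ S)

/-- the choices built by the recursion -/
def Gf {ι : Type*} [DecidableEq ι] [Fintype ι] (w : ℕ → ι) : ℕ → Finset ι → ℕ → Finset (ι → ℕ × ℕ)
  | 0, _, _ => {fun _ => (0, 0)}
  | k + 1, S, t => ((lastP w S t).sigma (fun p => Gf w k (S.erase (w p.1)) p.2)).image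
      (fun x => Function.update x.2 (w x.1.1) (x.1.2, x.1.1))

theorem Gf_mem {ι : Type*} [DecidableEq ι] [Fintype ι] (w : ℕ → ι) : ∀ (k : ℕ) (S : Finset ι) (t : ℕ),
    S.card = k → ∀ g ∈ Gf w k S t, (∀ j, j ∉ S → g j = (0, 0)) ∧
      (∀ j ∈ S, (g j).1 < (g j).2 ∧ (g j).2 < t ∧ w (g j).1 = j ∧ w (g j).2 = j) ∧
      ∀ i ∈ S, ∀ j ∈ S, i ≠ j → (g i).2 < (g j).1 ∨ (g j).2 < (g i).1 := by
  intro k
  induction k with
  | zero =>
    intro S t hS g hg
    have : S = ∅ := Finset.card_eq_zero.1 hS
    subst this
    simp only [Gf, Finset.mem_singleton] at hg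
    subst hg
    simp
  | succ k ih =>
    intro S t hS f hf
    simp only [Gf, Finset.mem_image, Finset.mem_sigma] at hf
    obtain ⟨⟨⟨b, a⟩, g⟩, ⟨hp, hg⟩, rfl⟩ := hf
    simp only [lastP, Finset.mem_filter, Finset.mem_product, Finset.mem_range] at hp hg
    obtain ⟨⟨hbt, hat⟩, hab, hw, hbS⟩ := hp
    obtain ⟨h1, h2, h3⟩ := ih (S.erase (w b)) a (by rw [Finset.card_erase_of_mem hbS, hS]; rfl) g hg
    simp only
    refine ⟨?_, ?_, ?_⟩
    · intro j hj
      have hjb : j ≠ w b := fun h => hj (h ▸ hbS)
      rw [Function.update_of_ne hjb]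
      exact h1 j fun h => hj (Finset.mem_of_mem_erase h)
    · intro j hj
      by_cases hjb : j = w b
      · subst hjb
        rw [Function.update_self]
        exact ⟨hab, hbt, hw, rfl⟩
      · rw [Function.update_of_ne hjb]
        obtain ⟨e1, e2, e3, e4⟩ := h2 j (Finset.mem_erase.2 ⟨hjb, hj⟩)
        exact ⟨e1, e2.trans hat, e3, e4⟩
    · intro i hi j hj hij
      by_cases hib : i = w b
      · have hjb : j ≠ w b := fun h => hij (hib.trans h.symm)
        rw [Function.update_of_ne hjb]
        subst hib
        rw [Function.update_self]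
        right
        exact (h2 j (Finset.mem_erase.2 ⟨hjb, hj⟩)).2.1
      · by_cases hjb : j = w b
        · subst hjb
          rw [Function.update_self, Function.update_of_ne hib]
          left
          exact (h2 i (Finset.mem_erase.2 ⟨hib, hi⟩)).2.1
        · rw [Function.update_of_ne hib, Function.update_of_ne hjb]
          exact h3 i (Finset.mem_erase.2 ⟨hib, hi⟩) j (Finset.mem_erase.2 ⟨hjb, hj⟩) hij

theorem Gf_card {ι : Type*} [DecidableEq ι] [Fintype ι] (w : ℕ → ι) : ∀ (k : ℕ) (S : Finset ι) (t : ℕ),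
    S.card = k → (Gf w k S t).card = R w k S t := by
  intro k
  induction k with
  | zero => intro S t hS; simp [Gf, R]
  | succ k ih =>
    intro S t hS
    rw [Gf, Finset.card_image_of_injOn, Finset.card_sigma]
    · have h1 : ∀ p ∈ lastP w S t, (Gf w k (S.erase (w p.1)) p.2).card =
          R w k (S.erase (w p.1)) p.2 := by
        rintro ⟨b, a⟩ hp
        simp only [lastP, Finset.mem_filter, Finset.mem_product, Finset.mem_range] at hp
        exact ih _ _ (by rw [Finset.card_erase_of_mem hp.2.2.2, hS]; rfl)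
      rw [Finset.sum_congr rfl h1, lastP, Finset.sum_filter, Finset.sum_product, R]
      refine Finset.sum_congr rfl fun b hb => ?_
      split_ifs with h
      · rw [Finset.sum_filter]
        have hb' : b < t := Finset.mem_range.1 hb
        have hsub : range b ⊆ range t := Finset.range_mono hb'.le
        rw [← Finset.sum_subset hsub]
        · refine Finset.sum_congr rfl fun a ha => ?_
          have ha' : a < b := Finset.mem_range.1 ha
          by_cases h2 : w a = w b
          · rw [if_pos ⟨ha', h2, h⟩, if_pos h2]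
          · rw [if_neg (fun h3 => h2 h3.2.1), if_neg h2]
        · intro a _ ha
          rw [if_neg]
          rintro ⟨h2, _⟩
          exact ha (Finset.mem_range.2 h2)
      · refine Finset.sum_eq_zero fun a _ => ?_
        rw [if_neg]
        rintro ⟨_, _, h3⟩
        exact h h3
    · rintro ⟨⟨b, a⟩, g⟩ h1 ⟨⟨b', a'⟩, g'⟩ h1' heq
      simp only [Finset.coe_sigma, Set.mem_sigma_iff, Finset.mem_coe] at h1 h1'
      obtain ⟨hp, hg⟩ := h1
      obtain ⟨hp', hg'⟩ := h1'
      simp only [lastP, Finset.mem_filter, Finset.mem_product, Finset.mem_range] at hp hp'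
      simp only at heq hg hg'
      obtain ⟨⟨hbt, hat⟩, hab, hw, hbS⟩ := hp
      obtain ⟨⟨hbt', hat'⟩, hab', hw', hbS'⟩ := hp'
      have m1 := Gf_mem w k (S.erase (w b)) a (by rw [Finset.card_erase_of_mem hbS, hS]; rfl) g hg
      have m2 := Gf_mem w k (S.erase (w b')) a' (by rw [Finset.card_erase_of_mem hbS', hS]; rfl)
        g' hg'
      have key : ∀ (b a b' a' : ℕ) (g g' : ι → ℕ × ℕ), w b' ∈ S → a < b →
          (∀ j ∈ S.erase (w b), (g j).1 < (g j).2 ∧ (g j).2 < a ∧ w (g j).1 = j ∧ w (g j).2 = j) →
          Function.update g (w b) (a, b) = Function.update g' (w b') (a', b') → b' ≤ b := by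
        intro b a b' a' g g' hS' hab h2 he
        have h3 := congrFun he (w b')
        rw [Function.update_self] at h3
        by_cases h4 : w b' = w b
        · rw [h4, Function.update_self] at h3
          have := (Prod.mk.inj h3).2
          omega
        · rw [Function.update_of_ne h4] at h3
          have h5 := (h2 (w b') (Finset.mem_erase.2 ⟨h4, hS'⟩)).2.1
          rw [h3] at h5
          simp only at h5
          omega
      have e1 : b' ≤ b := key b a b' a' g g' hbS' hab m1.2.1 heq
      have e2 : b ≤ b' := key b' a' b a g' g hbS hab' m2.2.1 heq.symm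
      have e3 : b = b' := le_antisymm e2 e1
      subst e3
      have e4 := congrFun heq (w b)
      rw [Function.update_self, Function.update_self] at e4
      have e5 : a = a' := (Prod.mk.inj e4).1
      subst e5
      have e6 : g = g' := by
        funext j
        by_cases h4 : j = w b
        · subst h4
          rw [m1.1 (w b) (Finset.notMem_erase _ _), m2.1 (w b) (Finset.notMem_erase _ _)]
        · have := congrFun heq j
          rwa [Function.update_of_ne h4, Function.update_of_ne h4] at this
      subst e6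
      rfl

theorem isW_finite {m : ℕ} (w : ℕ → Fin m) (t : ℕ) : {f | IsW w t f}.Finite := by
  refine Set.Finite.subset (Set.Finite.pi' (fun _ : Fin m =>
    ((Set.finite_Iio t).prod (Set.finite_Iio t)))) ?_
  intro f hf j
  have := hf.1 j
  exact ⟨this.1.trans this.2.1, this.2.1⟩

theorem t_RCOMB : S_RCOMB := by
  intro m w t
  rw [← Gf_card w m univ t (by simp), ← Set.ncard_coe_finset]
  refine Set.ncard_le_ncard ?_ (isW_finite w t)
  intro f hf
  have := Gf_mem w m univ t (by simp) f hf
  exact ⟨fun j => this.2.1 j (Finset.mem_univ _),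
    fun i j hij => this.2.2 i (Finset.mem_univ _) j (Finset.mem_univ _) hij⟩

theorem t_WORD' : S_WORD := t_WORD t_RCOMB

end Pool.Agent.V7H41.CC
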