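import Pool.Agent.V7H41.CC.Spec
import Pool.Agent.V7H41.CC.Pot

open Finset

namespace Pool.Agent.V7H41.CC

/-- number of occurrences of the letter `j` before `t` -/
def cnt {ι : Type*} [DecidableEq ι] (w : ℕ → ι) (j : ι) (t : ℕ) : ℕ :=
  ((range t).filter (fun x => w x = j)).card

theorem cnt_zero {ι : Type*} [DecidableEq ι] (w : ℕ → ι) (j : ι) : cnt w j 0 = 0 := by
  simp [cnt]

theorem cnt_succ {ι : Type*} [DecidableEq ι] (w : ℕ → ι) (j : ι) (t : ℕ) :
    cnt w j (t + 1) = cnt w j t + if w t = j then 1 else 0 := by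
  unfold cnt
  rw [Finset.range_add_one, Finset.filter_insert]
  split_ifs with h
  · rw [Finset.card_insert_of_notMem (by simp)]
  · simp

theorem cnt_mono {ι : Type*} [DecidableEq ι] (w : ℕ → ι) (j : ι) {s t : ℕ} (h : s ≤ t) :
    cnt w j s ≤ cnt w j t :=
  Finset.card_le_card (Finset.filter_subset_filter _ (Finset.range_mono h))

/-- the recursion, summed over the left end of the last interval -/
theorem R_swap {ι : Type*} [DecidableEq ι] (w : ℕ → ι) (k : ℕ) (S : Finset ι) (t : ℕ) :
    R w (k + 1) S t = ∑ a ∈ range t, if w a ∈ S then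
      (cnt w (w a) t - cnt w (w a) (a + 1)) * R w k (S.erase (w a)) a else 0 := by
  have h1 : R w (k + 1) S t = ∑ b ∈ range t, ∑ a ∈ range t,
      if (a < b ∧ w a = w b ∧ w b ∈ S) then R w k (S.erase (w b)) a else 0 := by
    rw [R]
    refine Finset.sum_congr rfl fun b hb => ?_
    rw [← Finset.sum_filter]
    split_ifs with h
    · refine Finset.sum_congr ?_ fun _ _ => rfl
      ext a
      simp only [Finset.mem_filter, Finset.mem_range] at hb ⊢
      constructor
      · rintro ⟨h1, h2⟩; exact ⟨h1.trans hb, h1, h2, h⟩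
      · rintro ⟨_, h1, h2, _⟩; exact ⟨h1, h2⟩
    · symm
      refine Finset.sum_eq_zero fun a ha => ?_
      exact absurd (Finset.mem_filter.1 ha).2.2.2 h
  rw [h1, Finset.sum_comm]
  refine Finset.sum_congr rfl fun a ha => ?_
  rw [← Finset.sum_filter]
  split_ifs with h
  · have h2 : ∀ b ∈ (range t).filter (fun b => a < b ∧ w a = w b ∧ w b ∈ S),
        R w k (S.erase (w b)) a = R w k (S.erase (w a)) a := by
      intro b hb
      rw [(Finset.mem_filter.1 hb).2.2.1]
    rw [Finset.sum_congr rfl h2, Finset.sum_const, smul_eq_mul]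
    congr 1
    have h3 : (range t).filter (fun b => a < b ∧ w a = w b ∧ w b ∈ S) =
        (range t).filter (fun x => w x = w a) \ (range (a + 1)).filter (fun x => w x = w a) := by
      ext b
      simp only [Finset.mem_filter, Finset.mem_range, Finset.mem_sdiff, not_and]
      constructor
      · rintro ⟨h1, h2, h3, h4⟩
        exact ⟨⟨h1, h3.symm⟩, fun h5 => by omega⟩
      · rintro ⟨⟨h1, h2⟩, h3⟩
        refine ⟨h1, ?_, h2.symm, h2 ▸ h⟩
        by_contra h4
        exact h3 (by omega) h2
    rw [h3, Finset.card_sdiff_of_subset]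
    · rfl
    · exact Finset.filter_subset_filter _ (Finset.range_mono (Nat.succ_le_of_lt (Finset.mem_range.1 ha)))
  · refine Finset.sum_eq_zero fun b hb => ?_
    have := (Finset.mem_filter.1 hb).2
    exact absurd (this.2.1 ▸ this.2.2) h

/-- the sum over the left ends -/
theorem main_sum {ι : Type*} [DecidableEq ι] (w : ℕ → ι) (k t : ℕ) (S : Finset ι)
    (hS : S.card = k + 1) :
    (1 : ℝ) / (2 * (2 * k + 1)) * ∏ i ∈ S, (((cnt w i t - (k + 1) : ℕ) : ℝ)) ^ 2 ≤
      ∑ a ∈ range t, if w a ∈ S then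
        ((cnt w (w a) t - cnt w (w a) (a + 1) : ℕ) : ℝ) *
          ∏ i ∈ S.erase (w a), (((cnt w i a - k : ℕ) : ℝ)) ^ 2 else 0 := by
  have hSn : S.Nonempty := Finset.card_pos.1 (by omega)
  have hnonneg : ∀ a ∈ range t, (0 : ℝ) ≤ if w a ∈ S then
        ((cnt w (w a) t - cnt w (w a) (a + 1) : ℕ) : ℝ) *
          ∏ i ∈ S.erase (w a), (((cnt w i a - k : ℕ) : ℝ)) ^ 2 else 0 := by
    intro a _
    split_ifs
    · exact mul_nonneg (Nat.cast_nonneg _) (Finset.prod_nonneg fun i _ => sq_nonneg _)
    · exact le_rfl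
  by_cases hM : ∀ i ∈ S, k + 1 < cnt w i t
  swap
  · push Not at hM
    obtain ⟨i, hi, hi2⟩ := hM
    have : ∏ i ∈ S, (((cnt w i t - (k + 1) : ℕ) : ℝ)) ^ 2 = 0 :=
      Finset.prod_eq_zero hi (by rw [Nat.sub_eq_zero_of_le hi2]; simp)
    rw [this, mul_zero]
    exact Finset.sum_nonneg hnonneg
  -- the scaled coordinates
  set M : ι → ℕ := fun i => cnt w i t - (k + 1) with hMdef
  have hMpos : ∀ i ∈ S, 0 < M i := fun i hi => by have := hM i hi; simp only [hMdef]; omega
  set z : ℕ → ι → ℕ := fun a i => min (cnt w i a - k) (M i) with hz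
  set u : ℕ → ι → ℝ := fun a i => (z a i : ℝ) / M i with hu
  have hMP : 0 < ∏ i ∈ S, ((M i : ℝ)) ^ 2 :=
    Finset.prod_pos fun i hi => by have := hMpos i hi; positivity
  have step : ∀ a ∈ range t, (∏ i ∈ S, ((M i : ℝ)) ^ 2) * (Ff S (u (a + 1)) - Ff S (u a)) ≤
      if w a ∈ S then
        ((cnt w (w a) t - cnt w (w a) (a + 1) : ℕ) : ℝ) *
          ∏ i ∈ S.erase (w a), (((cnt w i a - k : ℕ) : ℝ)) ^ 2 else 0 := by
    intro a ha
    have hat : a + 1 ≤ t := Nat.succ_le_of_lt (Finset.mem_range.1 ha)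
    split_ifs with hw
    · set j := w a with hj
      have hcj : cnt w j (a + 1) = cnt w j a + 1 := by rw [cnt_succ, if_pos hj.symm]
      have hoth : ∀ i ∈ S.erase j, u (a + 1) i = u a i := by
        intro i hi
        have : cnt w i (a + 1) = cnt w i a := by
          rw [cnt_succ, if_neg]
          · rfl
          · intro h; exact Finset.ne_of_mem_erase hi (h.symm.trans hj.symm)
        simp only [hu, hz, this]
      have hmono : u a j ≤ u (a + 1) j := by
        simp only [hu]
        refine div_le_div_of_nonneg_right ?_ (Nat.cast_nonneg _)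
        have : z a j ≤ z (a + 1) j := by simp only [hz, hcj]; omega
        exact_mod_cast this
      have h1 := Ff_step S (u a) (u (a + 1)) j hw (fun i _ => by
        simp only [hu]; positivity) hoth hmono
      have hle : cnt w j (a + 1) ≤ cnt w j t := cnt_mono w j hat
      have hMj := hMpos j hw
      have hMj' : (0 : ℝ) < M j := by exact_mod_cast hMj
      -- the scaled product
      have h2 : ∏ i ∈ S.erase j, ((M i : ℝ)) ^ 2 * u a i ^ 2 ≤
          ∏ i ∈ S.erase j, (((cnt w i a - k : ℕ) : ℝ)) ^ 2 := by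
        refine Finset.prod_le_prod (fun i _ => by positivity) fun i hi => ?_
        have hMi := hMpos i (Finset.mem_of_mem_erase hi)
        have hMi' : (0 : ℝ) < M i := by exact_mod_cast hMi
        have : (M i : ℝ) * u a i = z a i := by
          simp only [hu]; field_simp
        rw [← mul_pow, this]
        have h3 : (z a i : ℝ) ≤ ((cnt w i a - k : ℕ) : ℝ) := by
          have : z a i ≤ cnt w i a - k := by simp only [hz]; omega
          exact_mod_cast this
        exact pow_le_pow_left₀ (Nat.cast_nonneg _) h3 2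
      have h4 : (M j : ℝ) ^ 2 * ((u (a + 1) j - u a j) - (u (a + 1) j ^ 2 - u a j ^ 2) / 2) ≤
          ((cnt w j t - cnt w j (a + 1) : ℕ) : ℝ) := by
        have e1 : (M j : ℝ) * u (a + 1) j = z (a + 1) j := by simp only [hu]; field_simp
        have e2 : (M j : ℝ) * u a j = z a j := by simp only [hu]; field_simp
        have e3 : (M j : ℝ) ^ 2 * ((u (a + 1) j - u a j) - (u (a + 1) j ^ 2 - u a j ^ 2) / 2) =
            M j * (z (a + 1) j - z a j) - ((z (a + 1) j : ℝ) ^ 2 - (z a j) ^ 2) / 2 := by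
          rw [← e1, ← e2]; ring
        rw [e3]
        have hMeq : M j = cnt w j t - (k + 1) := rfl
        by_cases hc1 : cnt w j a < k
        · have : z (a + 1) j = 0 := by simp only [hz, hcj]; omega
          have h0 : z a j = 0 := by simp only [hz]; omega
          rw [this, h0]; simp
        · by_cases hc2 : cnt w j a - k < M j
          · have h5 : z a j = cnt w j a - k := by simp only [hz]; omega
            have h6 : z (a + 1) j = z a j + 1 := by rw [h5]; simp only [hz, hcj]; omega
            have h7 : cnt w j t - cnt w j (a + 1) + z a j = M j := by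
              rw [h5, hcj, hMeq]; omega
            have h8 : ((cnt w j t - cnt w j (a + 1) : ℕ) : ℝ) = M j - z a j := by
              rw [← h7]; push_cast; ring
            rw [h8, h6]; push_cast
            nlinarith
          · have h5 : z a j = M j := by simp only [hz]; omega
            have h6 : z (a + 1) j = M j := by simp only [hz, hcj]; omega
            rw [h5, h6]; simp
      have h9 : (0 : ℝ) ≤ ((cnt w j t - cnt w j (a + 1) : ℕ) : ℝ) := Nat.cast_nonneg _
      calc (∏ i ∈ S, ((M i : ℝ)) ^ 2) * (Ff S (u (a + 1)) - Ff S (u a))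
          ≤ (∏ i ∈ S, ((M i : ℝ)) ^ 2) * ((∏ i ∈ S.erase j, u a i ^ 2) *
            ((u (a + 1) j - u a j) - (u (a + 1) j ^ 2 - u a j ^ 2) / 2)) :=
            mul_le_mul_of_nonneg_left h1 hMP.le
        _ = ((M j : ℝ) ^ 2 * ((u (a + 1) j - u a j) - (u (a + 1) j ^ 2 - u a j ^ 2) / 2)) *
            ∏ i ∈ S.erase j, ((M i : ℝ)) ^ 2 * u a i ^ 2 := by
            rw [← Finset.mul_prod_erase S _ hw, Finset.prod_mul_distrib]; ring
        _ ≤ ((cnt w j t - cnt w j (a + 1) : ℕ) : ℝ) *
            ∏ i ∈ S.erase j, ((M i : ℝ)) ^ 2 * u a i ^ 2 :=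
            mul_le_mul_of_nonneg_right h4 (Finset.prod_nonneg fun i _ => by positivity)
        _ ≤ _ := mul_le_mul_of_nonneg_left h2 h9
    · have : ∀ i ∈ S, u (a + 1) i = u a i := by
        intro i hi
        have : cnt w i (a + 1) = cnt w i a := by
          rw [cnt_succ, if_neg]
          · rfl
          · intro h; exact hw (h ▸ hi)
        simp only [hu, hz, this]
      have h2 : Ff S (u (a + 1)) = Ff S (u a) := by
        unfold Ff Hf
        have h3 : (∀ i ∈ S, 0 < u (a + 1) i) ↔ (∀ i ∈ S, 0 < u a i) :=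
          forall₂_congr fun i hi => by rw [this i hi]
        have h4 : ∑ i ∈ S, (u (a + 1) i)⁻¹ = ∑ i ∈ S, (u a i)⁻¹ :=
          Finset.sum_congr rfl fun i hi => by rw [this i hi]
        have h5 : ∏ i ∈ S, u (a + 1) i ^ 2 = ∏ i ∈ S, u a i ^ 2 :=
          Finset.prod_congr rfl fun i hi => by rw [this i hi]
        rw [h4, h5]
        simp only [h3]
      rw [h2, sub_self, mul_zero]
  have tel : ∑ a ∈ range t, (Ff S (u (a + 1)) - Ff S (u a)) = Ff S (u t) - Ff S (u 0) :=
    Finset.sum_range_sub (fun a => Ff S (u a)) t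
  have h0 : Ff S (u 0) = 0 := by
    have : u 0 = fun _ => (0 : ℝ) := by
      funext i
      simp only [hu, hz, cnt_zero]
      simp
    rw [this]; exact Ff_zero S hSn
  have h1 : Ff S (u t) = 1 / (2 * (2 * S.card - 1)) := by
    refine Ff_one S hSn _ fun i hi => ?_
    have hMi := hMpos i hi
    have : z t i = M i := by simp only [hz, hMdef]; omega
    simp only [hu, this]
    exact div_self (by exact_mod_cast hMi.ne')
  have h2 := Finset.sum_le_sum step
  rw [← Finset.mul_sum, tel, h0, h1, sub_zero, hS] at h2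
  refine le_trans (le_of_eq ?_) h2
  push_cast
  rw [mul_comm]
  congr 2
  ring

theorem rineq_gen {ι : Type*} [DecidableEq ι] (w : ℕ → ι) : ∀ (k t : ℕ) (S : Finset ι),
    S.card = k → (k.factorial : ℝ) * ∏ j ∈ S, ((cnt w j t - k : ℕ) : ℝ) ^ 2 ≤
    R w k S t * (2 * k).factorial := by
  intro k
  induction k with
  | zero =>
    intro t S hS
    have : S = ∅ := Finset.card_eq_zero.1 hS
    subst this
    simp [R]
  | succ k ih =>
    intro t S hS
    have h1 := main_sum w k t S hS
    have hfac : (0 : ℝ) < (2 * k).factorial := by exact_mod_cast Nat.factorial_pos _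
    have h2 : ∑ a ∈ range t, (if w a ∈ S then
        ((cnt w (w a) t - cnt w (w a) (a + 1) : ℕ) : ℝ) *
          ∏ i ∈ S.erase (w a), (((cnt w i a - k : ℕ) : ℝ)) ^ 2 else 0) * k.factorial ≤
        (R w (k + 1) S t : ℝ) * (2 * k).factorial := by
      rw [R_swap]
      push_cast
      rw [Finset.sum_mul]
      refine Finset.sum_le_sum fun a _ => ?_
      split_ifs with h
      · have h3 := ih a (S.erase (w a)) (by rw [Finset.card_erase_of_mem h, hS]; rfl)
        have h4 : (0 : ℝ) ≤ ((cnt w (w a) t - cnt w (w a) (a + 1) : ℕ) : ℝ) := Nat.cast_nonneg _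
        calc _ = ((cnt w (w a) t - cnt w (w a) (a + 1) : ℕ) : ℝ) *
              ((k.factorial : ℝ) * ∏ i ∈ S.erase (w a), (((cnt w i a - k : ℕ) : ℝ)) ^ 2) := by ring
          _ ≤ ((cnt w (w a) t - cnt w (w a) (a + 1) : ℕ) : ℝ) *
              (R w k (S.erase (w a)) a * (2 * k).factorial) := mul_le_mul_of_nonneg_left h3 h4
          _ = _ := by ring
      · simp
    rw [← Finset.sum_mul] at h2
    have h5 : ((2 * (k + 1)).factorial : ℝ) = (2 * (2 * k + 1)) * (k + 1) * (2 * k).factorial := by
      rw [show 2 * (k + 1) = 2 * k + 1 + 1 by ring, Nat.factorial_succ, Nat.factorial_succ]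
      push_cast; ring
    have h6 : ((k + 1).factorial : ℝ) = (k + 1) * k.factorial := by
      rw [Nat.factorial_succ]; push_cast; ring
    rw [h5, h6]
    have hk : (0 : ℝ) < 2 * (2 * k + 1) := by positivity
    have hk1 : (0 : ℝ) < (k : ℝ) + 1 := by positivity
    have h7 : ((1 : ℝ) / (2 * (2 * k + 1)) * ∏ i ∈ S, (((cnt w i t - (k + 1) : ℕ) : ℝ)) ^ 2) *
        k.factorial ≤ (R w (k + 1) S t : ℝ) * (2 * k).factorial :=
      (mul_le_mul_of_nonneg_right h1 (Nat.cast_nonneg _)).trans h2
    have h8 := mul_le_mul_of_nonneg_left h7 (mul_nonneg hk.le hk1.le)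
    calc ((k : ℝ) + 1) * k.factorial * ∏ j ∈ S, ((cnt w j t - (k + 1) : ℕ) : ℝ) ^ 2
        = (2 * (2 * k + 1)) * (k + 1) * (((1 : ℝ) / (2 * (2 * k + 1)) *
          ∏ i ∈ S, (((cnt w i t - (k + 1) : ℕ) : ℝ)) ^ 2) * k.factorial) := by
          rw [show (2 * (2 * (k : ℝ) + 1)) * (k + 1) * (((1 : ℝ) / (2 * (2 * k + 1)) *
            ∏ i ∈ S, (((cnt w i t - (k + 1) : ℕ) : ℝ)) ^ 2) * k.factorial) =
            ((2 * (2 * (k : ℝ) + 1)) * (1 / (2 * (2 * k + 1)))) * ((k + 1) * k.factorial *
            ∏ i ∈ S, (((cnt w i t - (k + 1) : ℕ) : ℝ)) ^ 2) by ring,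
            mul_one_div_cancel hk.ne', one_mul]
      _ ≤ _ := h8
      _ = _ := by ring

theorem t_RINEQ : S_RINEQ := by
  intro m w k t S hS
  have h := rineq_gen w k t S hS
  exact_mod_cast h

theorem t_WORD (h : S_RCOMB) : S_WORD := by
  intro m w t
  have h1 := t_RINEQ m w m t univ (by simp)
  have h2 := h m w t
  exact h1.trans (Nat.mul_le_mul_right _ h2)

end Pool.Agent.V7H41.CC
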