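import Mathlib

/-!
# Minimum common convex partition counts of caterpillars: log-concavity fails

Definitions and the statements of the parts of the proof.
-/

open Finset

namespace Pool.Agent.V7H41.CC

/-- A phylogenetic tree on `[n]`: a finite tree with all degrees one or three, whose vertices of
degree one are labelled bijectively by `Fin n`. -/
structure PhyloTree (n : ℕ) where
  V : Type
  finite : Finite V
  G : SimpleGraph V
  leaf : Fin n → V
  isTree : G.IsTree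
  leaf_inj : Function.Injective leaf
  degree : ∀ v, (G.neighborSet v).ncard = 1 ∨ (G.neighborSet v).ncard = 3
  isLeaf : ∀ v, (∃ i, leaf i = v) ↔ (G.neighborSet v).ncard = 1

/-- A caterpillar: after deleting the leaves a path remains. -/
def PhyloTree.IsCaterpillar {n : ℕ} (T : PhyloTree n) : Prop :=
  ∃ m : ℕ, Nonempty (T.G.induce {v | ∀ i, T.leaf i ≠ v} ≃g SimpleGraph.pathGraph m)

/-- The subtree spanned by a set of leaves: the union of the paths between them. -/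
def PhyloTree.span {n : ℕ} (T : PhyloTree n) (A : Finset (Fin n)) : Set T.V :=
  {v | ∃ a ∈ A, ∃ b ∈ A, ∃ w : T.G.Walk (T.leaf a) (T.leaf b), w.IsPath ∧ v ∈ w.support}

/-- A partition is convex on `T` if the spanned subtrees are pairwise vertex-disjoint. -/
def PhyloTree.Convex {n : ℕ} (T : PhyloTree n)
    (P : Finpartition (univ : Finset (Fin n))) : Prop :=
  ∀ A ∈ P.parts, ∀ B ∈ P.parts, A ≠ B → Disjoint (T.span A) (T.span B)

/-- The number of partitions with `k` classes which are convex on both trees. -/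
noncomputable def common {n : ℕ} (T F : PhyloTree n) (k : ℕ) : ℕ :=
  {P : Finpartition (univ : Finset (Fin n)) |
    T.Convex P ∧ F.Convex P ∧ P.parts.card = k}.ncard

/-- `c_{n,k}`: the minimum over all pairs of caterpillars. -/
noncomputable def c (n k : ℕ) : ℕ :=
  sInf {N | ∃ T F : PhyloTree n, T.IsCaterpillar ∧ F.IsCaterpillar ∧ N = common T F k}

/-! ### Separated sets -/

/-- `A` lies entirely before `B`, or entirely after `B`, in the order given by `p`. -/
def Sep {α : Type*} (p : α → ℕ) (A B : Finset α) : Prop :=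
  (∀ a ∈ A, ∀ b ∈ B, p a < p b) ∨ (∀ a ∈ A, ∀ b ∈ B, p b < p a)

/-- All classes of size at least two are pairwise separated. -/
def SepP {n : ℕ} (p : Fin n → ℕ) (P : Finpartition (univ : Finset (Fin n))) : Prop :=
  ∀ A ∈ P.parts, ∀ B ∈ P.parts, A ≠ B → 2 ≤ A.card → 2 ≤ B.card → Sep p A B

/-- Sets of `m` pairs inside `X`, pairwise separated in both orders. -/
def IsSys {α : Type*} (p q : α → ℕ) (X : Finset α) (m : ℕ) (Q : Finset (Finset α)) : Prop :=
  Q.card = m ∧ (∀ A ∈ Q, A ⊆ X ∧ A.card = 2) ∧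
    ∀ A ∈ Q, ∀ B ∈ Q, A ≠ B → Sep p A B ∧ Sep q A B

/-! ### Trees -/

/-- (SINGLE) partitions with one non-trivial class are convex on every tree. -/
def S_SINGLE : Prop := ∀ (n m : ℕ) (T F : PhyloTree n), 1 ≤ m → m + 1 ≤ n →
  n.choose (m + 1) ≤ common T F (n - m)

/-- (CAT) every caterpillar comes from positions. -/
def S_CAT : Prop := ∀ (n : ℕ) (T : PhyloTree n), 4 ≤ n → T.IsCaterpillar →
  ∃ (pos : Fin n → ℕ) (X : Finset (Fin n)), n ≤ X.card + 2 ∧ Set.InjOn pos X ∧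
    ∀ P : Finpartition (univ : Finset (Fin n)), SepP pos P → T.Convex P

/-- (CONC) every order is realised by a caterpillar. -/
def S_CONC : Prop := ∀ (n : ℕ) (σ : Equiv.Perm (Fin n)), 4 ≤ n →
  ∃ T : PhyloTree n, T.IsCaterpillar ∧
    ∀ P : Finpartition (univ : Finset (Fin n)), T.Convex P → SepP (fun i => (σ i : ℕ)) P

/-- (PAIRS) a system of `m` pairs gives a partition with `n - m` classes. -/
def S_PAIRS : Prop := ∀ (n m : ℕ) (p q : Fin n → ℕ) (X : Finset (Fin n)),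
  {Q | IsSys p q X m Q}.ncard ≤
    {P : Finpartition (univ : Finset (Fin n)) |
      SepP p P ∧ SepP q P ∧ P.parts.card = n - m}.ncard

/-! ### The lower bound for systems of pairs -/

/-- Choices of one pair of occurrences of each letter in the word `w 0, ..., w (t-1)`, the
intervals spanned by the pairs being pairwise disjoint. -/
def IsW {ι : Type*} (w : ℕ → ι) (t : ℕ) (f : ι → ℕ × ℕ) : Prop :=
  (∀ j, (f j).1 < (f j).2 ∧ (f j).2 < t ∧ w (f j).1 = j ∧ w (f j).2 = j) ∧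
    ∀ i j, i ≠ j → (f i).2 < (f j).1 ∨ (f j).2 < (f i).1

/-- (WORD) -/
def S_WORD : Prop := ∀ (m : ℕ) (w : ℕ → Fin m) (t : ℕ),
  m.factorial * ∏ j, (((range t).filter (fun x => w x = j)).card - m) ^ 2 ≤
    {f | IsW w t f}.ncard * (2 * m).factorial

/-- the recursive count used for (WORD): choose the last interval `(a, b)`, of letter `j`. -/
def R {ι : Type*} [DecidableEq ι] (w : ℕ → ι) : ℕ → Finset ι → ℕ → ℕ
  | 0, _, _ => 1
  | k + 1, S, t => ∑ b ∈ range t, if w b ∈ S then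
      ∑ a ∈ (range b).filter (fun a => w a = w b), R w k (S.erase (w b)) a else 0

/-- (RINEQ) the inequality for the recursive count. -/
def S_RINEQ : Prop := ∀ (m : ℕ) (w : ℕ → Fin m) (k t : ℕ) (S : Finset (Fin m)), S.card = k →
  k.factorial * ∏ j ∈ S, (((range t).filter (fun x => w x = j)).card - k) ^ 2 ≤
    R w k S t * (2 * k).factorial

/-- (RCOMB) the recursive count is a lower bound for the number of choices. -/
def S_RCOMB : Prop := ∀ (m : ℕ) (w : ℕ → Fin m) (t : ℕ),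
  R w m univ t ≤ {f | IsW w t f}.ncard

/-- (COMP) -/
def S_COMP : Prop := ∀ m N : ℕ, 1 ≤ m →
  2 ^ m * (N - m ^ 2 + m - 1).choose (3 * m - 1) ≤
    ∑ g ∈ Finset.piAntidiag (univ : Finset (Fin m)) N, ∏ j, (g j - m) ^ 2

/-- Systems of `m` pairs of a permutation, enumerated in the order of the values. -/
def IsT {N : ℕ} (σ : Equiv.Perm (Fin N)) (m : ℕ) (f : Fin m → Fin N × Fin N) : Prop :=
  (∀ j, (f j).1 < (f j).2) ∧
  (∀ i j, i ≠ j → (f i).2 < (f j).1 ∨ (f j).2 < (f i).1) ∧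
  ∀ i j, i < j → σ (f i).1 < σ (f j).1 ∧ σ (f i).1 < σ (f j).2 ∧
    σ (f i).2 < σ (f j).1 ∧ σ (f i).2 < σ (f j).2

/-- (CORE) -/
def S_CORE : Prop := ∀ (N m : ℕ) (σ : Equiv.Perm (Fin N)), 2 ≤ m →
  m.factorial * 2 ^ m * (N - m ^ 2 + m - 1).choose (3 * m - 1) * (m - 1) ^ (m - 1) ≤
    {f | IsT σ m f}.ncard * ((2 * m).factorial * N ^ (m - 1))

/-- (TRANS) from permutations to two injective position functions on a set. -/
def S_TRANS : Prop := ∀ (α : Type) (p q : α → ℕ) (X : Finset α) (m : ℕ), Set.InjOn p X →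
  Set.InjOn q X → ∃ σ : Equiv.Perm (Fin X.card),
    {f | IsT σ m f}.ncard ≤ {Q | IsSys p q X m Q}.ncard

/-! ### The upper bound by averaging over permutations -/

/-- `∑ ∏ (b_i + 1)!` over all `b_1 + ... + b_r = m`, `b_i ≥ 1`. -/
def W (m r : ℕ) : ℕ :=
  ∑ b ∈ (Finset.piAntidiag (univ : Finset (Fin r)) m).filter (fun b => ∀ i, 1 ≤ b i),
    ∏ i, (b i + 1).factorial

/-- the non-trivial classes of a partition -/
def nt {n : ℕ} (P : Finpartition (univ : Finset (Fin n))) : Finset (Finset (Fin n)) :=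
  P.parts.filter (fun A => 2 ≤ A.card)

/-- (PERM) the number of orders for which a given partition is separated. -/
def S_PERM : Prop := ∀ (n : ℕ) (P : Finpartition (univ : Finset (Fin n))),
  {σ : Equiv.Perm (Fin n) | SepP (fun i => (σ i : ℕ)) P}.ncard *
      (∑ A ∈ nt P, A.card).factorial ≤
    n.factorial * (nt P).card.factorial * ∏ A ∈ nt P, A.card.factorial

/-- (SUM) the sum over all partitions separated in the natural order. -/
def S_SUM : Prop := ∀ n m : ℕ, 1 ≤ m → m < n →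
  (∑ᶠ P ∈ {P : Finpartition (univ : Finset (Fin n)) |
      SepP (fun i => (i : ℕ)) P ∧ P.parts.card = n - m},
    ((nt P).card.factorial * ∏ A ∈ nt P, A.card.factorial : ℕ) /
      ((∑ A ∈ nt P, A.card).factorial : ℝ)) ≤
  ∑ r ∈ Icc 1 m, (n.choose (m + r) : ℝ) * r.factorial * W m r / (m + r).factorial

/-- (AVG) -/
def S_AVG : Prop := ∀ n m : ℕ, 1 ≤ m → m < n →
  ∃ σ : Equiv.Perm (Fin n),
    (({P : Finpartition (univ : Finset (Fin n)) | SepP (fun i => (i : ℕ)) P ∧
      SepP (fun i => (σ i : ℕ)) P ∧ P.parts.card = n - m}.ncard : ℕ) : ℝ) ≤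
  ∑ r ∈ Icc 1 m, (n.choose (m + r) : ℝ) * r.factorial * W m r / (m + r).factorial

/-! ### The analytic part: `n = (100 t)^2`, `m1 = 28 t`, `m2 = 97 t`, `m3 = 100 t` -/

/-- (UPPER) the bound for the average at `m = 97 t`, with `η = 1 / 10000`. -/
def S_UPPER : Prop := ∃ t₀ : ℕ, ∃ K : ℝ, ∀ t : ℕ, t₀ ≤ t → 1 ≤ t → ∀ n m : ℕ,
  n = (100 * t) ^ 2 → m = 97 * t →
  Real.log (∑ r ∈ Icc 1 m, (n.choose (m + r) : ℝ) * r.factorial * W m r / (m + r).factorial) ≤
    m * (Real.log n - Real.log m + 1 + 1 / 10000) + K * (Real.log t + 1)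

/-- (LOWL) -/
def S_LOWL : Prop := ∃ t₀ : ℕ, ∃ K : ℝ, ∀ t : ℕ, t₀ ≤ t → 1 ≤ t → ∀ n m N : ℕ,
  n = (100 * t) ^ 2 → m = 28 * t → n ≤ N + 4 → N ≤ n →
  m * (2 * Real.log n - 3 * Real.log m + 4 - Real.log 2 - 3 * Real.log 3
    + 3 * Real.log (1 - 0.28 ^ 2)) - K * (Real.log t + 1) ≤
  Real.log (m.factorial * 2 ^ m * (N - m ^ 2 + m - 1).choose (3 * m - 1) * (m - 1 : ℕ) ^ (m - 1) /
    ((2 * m).factorial * (N : ℝ) ^ (m - 1)))

/-- (SINL) -/
def S_SINL : Prop := ∃ t₀ : ℕ, ∃ K : ℝ, ∀ t : ℕ, t₀ ≤ t → 1 ≤ t → ∀ n m : ℕ,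
  n = (100 * t) ^ 2 → m = 100 * t →
  m * (Real.log n - Real.log m + 1) - K * (Real.log t + 1) ≤ Real.log (n.choose (m + 1))

/-- (NUM) the final numerical inequality. -/
def S_NUM : Prop := ∀ K : ℝ, ∃ t₀ : ℕ, ∀ t : ℕ, t₀ ≤ t → ∀ n m1 m2 m3 : ℕ,
  n = (100 * t) ^ 2 → m1 = 28 * t → m2 = 97 * t → m3 = 100 * t →
  ((m3 : ℝ) - m1) * (m2 * (Real.log n - Real.log m2 + 1 + 1 / 10000) + K * (Real.log t + 1)) <
  ((m3 : ℝ) - m2) * (m1 * (2 * Real.log n - 3 * Real.log m1 + 4 - Real.log 2 - 3 * Real.log 3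
    + 3 * Real.log (1 - 0.28 ^ 2)) - K * (Real.log t + 1)) +
  ((m2 : ℝ) - m1) * (m3 * (Real.log n - Real.log m3 + 1) - K * (Real.log t + 1))

end Pool.Agent.V7H41.CC
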