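import Pool.Agent.V7H41.CC.Spec4

open Finset

namespace Pool.Agent.V7H41.CC

/-- (TAIL) the average at `m` is below the lower bound for all trees at `m + 1`, for
`m ≤ (log n) / 6`. -/
def S_TAIL : Prop := ∃ n₀ : ℕ, ∀ n m : ℕ, n₀ ≤ n → 1 ≤ m → (m : ℝ) ≤ Real.log n / 6 →
  ∑ r ∈ Icc 1 m, (n.choose (m + r) : ℝ) * r.factorial * W m r / (m + r).factorial ≤
    ((n : ℝ) ^ 2 / (10000 * ((m + 1 : ℕ) : ℝ) ^ 2)) ^ (m + 1) / (m + 1).factorial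

end Pool.Agent.V7H41.CC
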