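import Pool.Agent.V7H41.CC.Bulk
import Pool.Agent.V7H41.CC.Spec4

open Finset

namespace Pool.Agent.V7H41.CC

theorem trees_low (hCONC : S_CONC) (hP : S_PIECES) (hTFP : S_TFP) (hG : S_GREEDY)
    (hF : S_SFIN) : ∃ n₀ : ℕ, ∀ n m : ℕ, n₀ ≤ n → 2 ≤ m → (200 * m) ^ 2 ≤ n →
      ((n : ℝ) ^ 2 / (10000 * (m : ℝ) ^ 2)) ^ m / m.factorial ≤ s n (n - m) ∧
      2 * n.choose (m + 1) ≤ s n (n - m) := by
  obtain ⟨n₀, hF⟩ := hF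
  refine ⟨max n₀ 4, fun n m hn hm hmn => ?_⟩
  obtain ⟨q, hq1, hq2, hq3, hq4, hq5⟩ := hF n m (by omega) hm hmn
  obtain ⟨T, F, h⟩ := s_mem hCONC n (n - m) (by omega)
  obtain ⟨a, X, x1, x2, x3, x4⟩ := hP n T q hq1
  obtain ⟨b, Y, y1, y2, y3, y4⟩ := hP n F q hq1
  have h1 := hG n m q hq1 hq2 hq3 T F a b X Y x1 x2 x3 x4 y1 y2 y3 y4
  have h2 : ({Q | IsTF T F m Q}.ncard : ℝ) ≤ s n (n - m) := by
    rw [h]; exact_mod_cast hTFP n m T F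
  have hf : (0 : ℝ) < m.factorial := by exact_mod_cast Nat.factorial_pos _
  have h3 : ((n : ℝ) ^ 2 / (10000 * (m : ℝ) ^ 2)) ^ m / m.factorial ≤ s n (n - m) :=
    (div_le_div_of_nonneg_right hq4 hf.le).trans (h1.trans h2)
  refine ⟨h3, ?_⟩
  exact_mod_cast hq5.trans h3

end Pool.Agent.V7H41.CC
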