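import Pool.Agent.V7H41.CC.Bulk2
import Pool.Agent.V7H41.CC.Trees
import Pool.Agent.V7H41.CC.Spec5

open Finset

namespace Pool.Agent.V7H41.CC

theorem parts_all (n : ℕ) (P : Finpartition (univ : Finset (Fin n))) (h : P.parts.card = n) :
    P.parts = univ.image (fun i : Fin n => ({i} : Finset (Fin n))) := by
  have h1 : ∑ A ∈ P.parts, A.card = n := by
    rw [P.sum_card_parts]; simp
  have h2 : ∀ A ∈ P.parts, A.card = 1 := by
    by_contra hcon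
    push Not at hcon
    obtain ⟨A, hA, hA1⟩ := hcon
    have hpos : ∀ B ∈ P.parts, 1 ≤ B.card := fun B hB => (P.nonempty_of_mem_parts hB).card_pos
    have h3 : ∑ B ∈ P.parts, 1 < ∑ B ∈ P.parts, B.card :=
      Finset.sum_lt_sum hpos ⟨A, hA, lt_of_le_of_ne (hpos A hA) (Ne.symm hA1)⟩
    rw [h1, Finset.sum_const, smul_eq_mul, mul_one, h] at h3
    exact lt_irrefl _ h3
  ext A
  simp only [Finset.mem_image, Finset.mem_univ, true_and]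
  constructor
  · intro hA
    obtain ⟨i, hi⟩ := Finset.card_eq_one.1 (h2 A hA)
    exact ⟨i, hi.symm⟩
  · rintro ⟨i, rfl⟩
    obtain ⟨A, hA, hi⟩ := P.exists_mem (Finset.mem_univ i)
    obtain ⟨j, hj⟩ := Finset.card_eq_one.1 (h2 A hA)
    rw [hj, Finset.mem_singleton] at hi
    rw [hi, ← hj]; exact hA

theorem common_self_le (n : ℕ) (T F : PhyloTree n) : common T F n ≤ 1 := by
  rw [common, Set.ncard_le_one (Set.toFinite _)]
  rintro P ⟨_, _, h1⟩ Q ⟨_, _, h2⟩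
  have : P.parts = Q.parts := by rw [parts_all n P h1, parts_all n Q h2]
  exact Finpartition.ext this

theorem log_sq_le : ∃ n₀ : ℕ, ∀ n m : ℕ, n₀ ≤ n → (m : ℝ) ≤ Real.log n / 6 →
    (200 * m) ^ 2 ≤ n := by
  refine ⟨400000000, fun n m hn hm => ?_⟩
  have hn' : (400000000 : ℝ) ≤ n := by exact_mod_cast hn
  have hn0 : (0 : ℝ) < n := by linarith
  have h1 : Real.log n ≤ (n : ℝ) ^ (1 / 4 : ℝ) / (1 / 4) :=
    Real.log_le_rpow_div hn0.le (by norm_num)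
  have h2 : (200 * (m : ℝ)) ≤ 200 * (4 * (n : ℝ) ^ (1 / 4 : ℝ) / 6) := by
    have : (n : ℝ) ^ (1 / 4 : ℝ) / (1 / 4) = 4 * (n : ℝ) ^ (1 / 4 : ℝ) := by ring
    rw [this] at h1
    linarith
  have h3 : (200 * (m : ℝ)) ^ 2 ≤ (200 * (4 * (n : ℝ) ^ (1 / 4 : ℝ) / 6)) ^ 2 :=
    pow_le_pow_left₀ (by positivity) h2 2
  have h4 : ((n : ℝ) ^ (1 / 4 : ℝ)) ^ 2 = Real.sqrt n := by
    rw [← Real.rpow_natCast, ← Real.rpow_mul hn0.le, Real.sqrt_eq_rpow]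
    norm_num
  have h5 : (200 * (4 * (n : ℝ) ^ (1 / 4 : ℝ) / 6)) ^ 2 ≤ 17778 * Real.sqrt n := by
    have : (200 * (4 * (n : ℝ) ^ (1 / 4 : ℝ) / 6)) ^ 2 =
        (800 / 6) ^ 2 * ((n : ℝ) ^ (1 / 4 : ℝ)) ^ 2 := by ring
    rw [this, h4]
    have : 0 ≤ Real.sqrt n := Real.sqrt_nonneg _
    nlinarith
  have h6 : (17778 : ℝ) ≤ Real.sqrt n := by
    apply Real.le_sqrt_of_sq_le
    norm_num
    linarith
  have h7 : 17778 * Real.sqrt n ≤ n := by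
    have := Real.mul_self_sqrt hn0.le
    nlinarith [Real.sqrt_nonneg (n : ℝ)]
  have : (200 * (m : ℝ)) ^ 2 ≤ n := h3.trans (h5.trans h7)
  exact_mod_cast this

theorem tail_mono (hCONC : S_CONC) (hSI : S_SINGLE) (hAVG : S_AVG) (hTAIL : S_TAIL)
    (hTR : ∃ n₀ : ℕ, ∀ n m : ℕ, n₀ ≤ n → 2 ≤ m → (200 * m) ^ 2 ≤ n →
      ((n : ℝ) ^ 2 / (10000 * (m : ℝ) ^ 2)) ^ m / m.factorial ≤ s n (n - m) ∧
      2 * n.choose (m + 1) ≤ s n (n - m)) :
    ∃ n₀ : ℕ, ∀ n : ℕ, n₀ ≤ n → ∀ a : ℕ → ℕ, (a = c n ∨ a = s n) →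
      ∀ k : ℕ, (n : ℝ) - Real.log n / 6 ≤ k → k < n → a (k + 1) ≤ a k := by
  obtain ⟨n1, hTAIL⟩ := hTAIL
  obtain ⟨n2, hTR⟩ := hTR
  obtain ⟨n3, hlog⟩ := log_sq_le
  refine ⟨max (max n1 n2) (max n3 4), fun n hn a ha k hk hkn => ?_⟩
  have hn4 : 4 ≤ n := by omega
  have hs : ∀ k, s n k ≤ a k := by
    intro k
    rcases ha with rfl | rfl
    · exact s_le_c hCONC n k hn4
    · exact le_rfl
  have hc : ∀ k, a k ≤ c n k := by
    intro k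
    rcases ha with rfl | rfl
    · exact le_rfl
    · exact s_le_c hCONC n k hn4
  obtain ⟨m, hm⟩ : ∃ m, k + 1 + m = n := ⟨n - (k + 1), by omega⟩
  have hm6 : ((m + 1 : ℕ) : ℝ) ≤ Real.log n / 6 := by
    have : (n : ℝ) = k + ((m + 1 : ℕ) : ℝ) := by rw [← hm]; push_cast; ring
    linarith
  rcases Nat.eq_zero_or_pos m with h0 | h0
  · subst h0
    have e1 : a (k + 1) ≤ 1 := by
      have : k + 1 = n := by omega
      rw [this]
      refine (hc n).trans ?_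
      obtain ⟨T, F, hT, hF, h⟩ := c_mem hCONC n n hn4
      rw [h]
      exact common_self_le n T F
    have e2 : 1 ≤ a k := by
      refine le_trans ?_ (hs k)
      have : k = n - 1 := by omega
      rw [this]
      exact le_trans (Nat.choose_pos (by omega)) (s_single hSI hCONC n 1 hn4 le_rfl (by omega))
    exact e1.trans e2
  · have e1 : (a (k + 1) : ℝ) ≤
        ∑ r ∈ Icc 1 m, (n.choose (m + r) : ℝ) * r.factorial * W m r / (m + r).factorial := by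
      have h1 := c_avg hCONC hAVG n m hn4 h0 (by omega)
      have : n - m = k + 1 := by omega
      rw [this] at h1
      exact le_trans (by exact_mod_cast hc (k + 1)) h1
    have hm6' : (m : ℝ) ≤ Real.log n / 6 := by
      push_cast at hm6; linarith
    have e2 := hTAIL n m (by omega) h0 hm6'
    have e3 := (hTR n (m + 1) (by omega) (by omega) (hlog n (m + 1) (by omega) hm6)).1
    have : n - (m + 1) = k := by omega
    rw [this] at e3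
    have e4 : (a (k + 1) : ℝ) ≤ a k := by
      refine e1.trans (e2.trans (e3.trans ?_))
      exact_mod_cast hs k
    exact_mod_cast e4

theorem bulk_full (hSI : S_SINGLE) (hCONC : S_CONC) (hAVG : S_AVG) (hAVB : S_AVB)
    (hUNI : S_UNI) (hA97 : S_AVB97) (hS97 : S_STEP97) (hTAIL : S_TAIL)
    (hTR : ∃ n₀ : ℕ, ∀ n m : ℕ, n₀ ≤ n → 2 ≤ m → (200 * m) ^ 2 ≤ n →
      ((n : ℝ) ^ 2 / (10000 * (m : ℝ) ^ 2)) ^ m / m.factorial ≤ s n (n - m) ∧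
      2 * n.choose (m + 1) ≤ s n (n - m)) :
    ∃ n₀ : ℕ, ∃ C : ℝ, ∀ n : ℕ, n₀ ≤ n → ∀ a : ℕ → ℕ, (a = c n ∨ a = s n) →
      (∀ k, 1 ≤ k → k < n → 97 ^ 2 * n ≤ (100 * (n - k)) ^ 2 →
        (n.choose (k - 1) : ℝ) ≤ a k ∧
        (a k : ℝ) ≤ n.choose (k - 1) * (1 + C * (n : ℝ) / ((n - k : ℕ) : ℝ) ^ 3)) ∧
      (∃ p, n ≤ 2 * p ∧ 2 * p ≤ n + 3 ∧ (∀ j k, 1 ≤ j → j ≤ k → k ≤ p → a j ≤ a k) ∧
        (∀ j k, p ≤ j → j ≤ k → k < n → 97 ^ 2 * n ≤ (100 * (n - k)) ^ 2 → a k ≤ a j)) ∧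
      (∀ k : ℕ, (n : ℝ) - Real.log n / 6 ≤ k → k < n → a (k + 1) ≤ a k) ∧
      (∀ k, 2 ≤ k → k < n → 400 * n ≤ (n - k) ^ 2 → a (k - 1) * a (k + 1) ≤ a k ^ 2) := by
  obtain ⟨n1, C, h1⟩ := bulk hSI hCONC hAVG hAVB hUNI hA97 hS97
  obtain ⟨n2, h2⟩ := tail_mono hCONC hSI hAVG hTAIL hTR
  refine ⟨max n1 n2, C, fun n hn a ha => ?_⟩
  obtain ⟨a1, a2, a3⟩ := h1 n (by omega) a ha
  exact ⟨a1, a2, h2 n (by omega) a ha, a3⟩

end Pool.Agent.V7H41.CC
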